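import Pool.Agent.Work.MP_4e9880_al.RingIso

set_option autoImplicit false
set_option linter.unusedSectionVars false
set_option linter.unusedSimpArgs false

namespace Pool.Agent.Work.MP_4e9880_al

namespace Model

abbrev Sq := ℕ → ℕ

def cons (n : ℕ) (r : Sq) : Sq := fun i => Nat.casesOn i n r

def tl (r : Sq) : Sq := fun i => r (i + 1)

@[simp] theorem cons_zero (n : ℕ) (r : Sq) : cons n r 0 = n := rfl
@[simp] theorem cons_succ (n i : ℕ) (r : Sq) : cons n r (i + 1) = r i := rfl
@[simp] theorem cons_one (n : ℕ) (r : Sq) : cons n r 1 = r 0 := rfl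
@[simp] theorem tl_cons (n : ℕ) (r : Sq) : tl (cons n r) = r := rfl
@[simp] theorem tl_zero (r : Sq) : tl r 0 = r 1 := rfl
@[simp] theorem cons_tl (r : Sq) : cons (r 0) (tl r) = r := by
  funext i; cases i <;> rfl
theorem cons_tl' (r : Sq) (n : ℕ) (h : r 0 = n) : cons n (tl r) = r := by
  rw [← h]; exact cons_tl r
theorem cons_tl1 (r : Sq) : cons (r 1) (tl (tl r)) = tl r := cons_tl (tl r)

/-- forward move. -/
def fw (r : Sq) : Sq :=
  if r 0 = 0 then cons 0 r
  else if r 0 = 1 then cons 0 (cons (r 1 + 1) (tl (tl r)))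
  else cons (r 0 - 1) (tl r)

/-- backward move. -/
def bw (r : Sq) : Sq :=
  if r 0 = 0 then (if r 1 = 0 then tl r else cons 1 (cons (r 1 - 1) (tl (tl r))))
  else cons (r 0 + 1) (tl r)

theorem fw_bw (r : Sq) : fw (bw r) = r := by
  unfold bw
  by_cases h0 : r 0 = 0
  · by_cases h1 : r 1 = 0
    · simp only [h0, h1, if_true]
      unfold fw
      simp only [tl_zero, h1, if_true]
      exact cons_tl' r 0 h0
    · simp only [h0, h1, if_true, if_false]
      unfold fw
      simp only [cons_zero, cons_one, tl_cons, one_ne_zero, if_true, if_false]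
      have : r 1 - 1 + 1 = r 1 := by omega
      rw [this, cons_tl1, cons_tl' r 0 h0]
  · simp only [h0, if_false]
    unfold fw
    have h1 : ¬ (r 0 + 1 = 0) := by omega
    have h2 : ¬ (r 0 + 1 = 1) := by omega
    simp only [cons_zero, h1, h2, if_false, tl_cons, Nat.add_sub_cancel, cons_tl]

theorem bw_fw (r : Sq) : bw (fw r) = r := by
  unfold fw
  by_cases h0 : r 0 = 0
  · simp only [h0, if_true]
    unfold bw
    simp [h0]
  · by_cases h1 : r 0 = 1
    · simp only [h1, one_ne_zero, if_true, if_false]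
      unfold bw
      simp only [cons_zero, cons_one, tl_cons, if_true]
      have h2 : ¬ (r 1 + 1 = 0) := by omega
      simp only [h2, if_false, Nat.add_sub_cancel, cons_tl1]
      exact cons_tl' r 1 h1
    · simp only [h0, h1, if_false]
      unfold bw
      have h2 : ¬ (r 0 - 1 = 0) := by omega
      simp only [cons_zero, tl_cons, h2, if_false]
      have : r 0 - 1 + 1 = r 0 := by omega
      rw [this, cons_tl]

theorem fw_iter_bw (n : ℕ) (r : Sq) : fw^[n] (bw^[n] r) = r :=
  Function.LeftInverse.iterate fw_bw n r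

theorem bw_iter_fw (n : ℕ) (r : Sq) : bw^[n] (fw^[n] r) = r :=
  Function.LeftInverse.iterate bw_fw n r

theorem fw_zero_of_zero {r : Sq} (h : r 0 = 0) : fw r 0 = 0 := by
  unfold fw; simp [h]

theorem fw_iter_zero (n : ℕ) (r : Sq) (h : r 0 = 0) : fw^[n] r 0 = 0 := by
  induction n generalizing r with
  | zero => exact h
  | succ n ih =>
    rw [Function.iterate_succ_apply]
    exact ih _ (fw_zero_of_zero h)

theorem fw_iter_one (n : ℕ) (hn : n ≠ 0) (r : Sq) : fw^[n] (cons 1 r) 0 = 0 := by
  obtain ⟨m, rfl⟩ := Nat.exists_eq_succ_of_ne_zero hn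
  rw [Function.iterate_succ_apply]
  apply fw_iter_zero
  unfold fw
  simp

abbrev V := Sq → Sq → ZMod 2

abbrev EV := Module.End (ZMod 2) V

/-- operator given by a partial pull-back. -/
def op (c : Sq → Sq → Prop) [∀ l r, Decidable (c l r)] (g : Sq → Sq → Sq × Sq) : EV where
  toFun φ := fun l r => if c l r then φ (g l r).1 (g l r).2 else 0
  map_add' := by
    intro φ ψ; funext l r
    by_cases h : c l r <;> simp [h]
  map_smul' := by
    intro k φ; funext l r
    by_cases h : c l r <;> simp [h]

def mv (g : Sq → Sq → Sq × Sq) : EV where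
  toFun φ := fun l r => φ (g l r).1 (g l r).2
  map_add' := by intro φ ψ; rfl
  map_smul' := by intro k φ; rfl

def oa : EV := op (fun _ r => r 0 = 0) (fun l r => (l, tl r))
def oa' : EV := mv (fun l r => (l, cons 0 r))
def ob : EV := op (fun _ r => r 0 ≠ 0) (fun l r => (l, cons (r 0 - 1) (tl r)))
def ob' : EV := mv (fun l r => (l, cons (r 0 + 1) (tl r)))
def os : EV := mv (fun l r => (cons (r 0) l, tl r))
def os' : EV := mv (fun l r => (tl l, cons (l 0) r))
def of : EV := mv (fun l r => (l, cons (r 1) (cons (r 0) (tl (tl r)))))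
def ot : EV := mv (fun l r => (l, cons (r 0) (bw^[r 0] (tl r))))
def ot' : EV := mv (fun l r => (l, cons (r 0) (fw^[r 0] (tl r))))

theorem oa_apply (φ : V) (l r : Sq) : oa φ l r = if r 0 = 0 then φ l (tl r) else 0 := rfl
theorem oa'_apply (φ : V) (l r : Sq) : oa' φ l r = φ l (cons 0 r) := rfl
theorem ob_apply (φ : V) (l r : Sq) :
    ob φ l r = if r 0 ≠ 0 then φ l (cons (r 0 - 1) (tl r)) else 0 := rfl
theorem ob'_apply (φ : V) (l r : Sq) : ob' φ l r = φ l (cons (r 0 + 1) (tl r)) := rfl
theorem os_apply (φ : V) (l r : Sq) : os φ l r = φ (cons (r 0) l) (tl r) := rfl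
theorem os'_apply (φ : V) (l r : Sq) : os' φ l r = φ (tl l) (cons (l 0) r) := rfl
theorem of_apply (φ : V) (l r : Sq) :
    of φ l r = φ l (cons (r 1) (cons (r 0) (tl (tl r)))) := rfl
theorem ot_apply (φ : V) (l r : Sq) : ot φ l r = φ l (cons (r 0) (bw^[r 0] (tl r))) := rfl
theorem ot'_apply (φ : V) (l r : Sq) : ot' φ l r = φ l (cons (r 0) (fw^[r 0] (tl r))) := rfl

theorem ext_op {p q : EV} (h : ∀ φ l r, p φ l r = q φ l r) : p = q := by
  apply LinearMap.ext; intro φ; funext l r; exact h φ l r

theorem xx_apply (φ : V) (l r : Sq) :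
    (oa * oa * oa' + oa * ob * oa' * ob' + ob * ob' * ob') φ l r = φ l (bw r) := by
  simp only [LinearMap.add_apply, Module.End.mul_apply, Pi.add_apply, oa_apply, oa'_apply,
    ob_apply, ob'_apply]
  unfold bw
  by_cases h0 : r 0 = 0
  · by_cases h1 : r 1 = 0
    · simp [h0, h1]
      rw [cons_tl' (tl r) 0 h1]
    · simp [h0, h1]
  · simp [h0]
    have : r 0 - 1 + 1 + 1 = r 0 + 1 := by omega
    rw [this]

theorem one_apply (φ : V) (l r : Sq) : (1 : EV) φ l r = φ l r := rfl
theorem zero_apply (φ : V) (l r : Sq) : (0 : EV) φ l r = 0 := rfl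
theorem mul_apply (p q : EV) (φ : V) (l r : Sq) : (p * q) φ l r = p (q φ) l r := rfl
theorem add_apply (p q : EV) (φ : V) (l r : Sq) : (p + q) φ l r = p φ l r + q φ l r := rfl

def modelSys : Sys EV where
  a := oa
  a' := oa'
  b := ob
  b' := ob'
  s := os
  s' := os'
  f := of
  t := ot
  t' := ot'
  E := 0
  haa := by
    apply ext_op; intro φ l r
    simp [mul_apply, oa_apply, oa'_apply, one_apply]
  hbb := by
    apply ext_op; intro φ l r
    simp [mul_apply, ob_apply, ob'_apply, one_apply]
  hab := by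
    apply ext_op; intro φ l r
    simp [mul_apply, ob_apply, oa'_apply, zero_apply]
  hba := by
    apply ext_op; intro φ l r
    simp [mul_apply, oa_apply, ob'_apply, zero_apply]
  hsum := by
    apply ext_op; intro φ l r
    simp only [add_apply, mul_apply, oa_apply, oa'_apply, ob_apply, ob'_apply, one_apply]
    by_cases h : r 0 = 0
    · simp [h, cons_tl' r 0 h]
    · have : r 0 - 1 + 1 = r 0 := by omega
      simp [h, this]
  hss := by
    apply ext_op; intro φ l r
    simp [mul_apply, os_apply, os'_apply, one_apply]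
  hss' := by
    apply ext_op; intro φ l r
    simp [mul_apply, os_apply, os'_apply, one_apply]
  hff := by
    apply ext_op; intro φ l r
    simp [mul_apply, of_apply, one_apply, cons_tl1]
  htt := by
    apply ext_op; intro φ l r
    simp [mul_apply, ot_apply, ot'_apply, one_apply, fw_iter_bw]
  htt' := by
    apply ext_op; intro φ l r
    simp [mul_apply, ot_apply, ot'_apply, one_apply, bw_iter_fw]
  g1a := by
    apply ext_op; intro φ l r
    simp [mul_apply, os_apply, os'_apply, oa_apply, oa'_apply]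
    all_goals (by_cases h0 : r 0 = 0 <;> by_cases h1 : r 1 = 0 <;> simp [h0, h1])
  g1b := by
    apply ext_op; intro φ l r
    simp [mul_apply, os_apply, os'_apply, oa_apply, oa'_apply, ob_apply, ob'_apply]
    all_goals (by_cases h0 : r 0 = 0 <;> by_cases h1 : r 1 = 0 <;> simp [h0, h1])
  g2a := by
    apply ext_op; intro φ l r
    simp [mul_apply, os_apply, os'_apply, oa_apply, oa'_apply, ob_apply, ob'_apply]
    all_goals (by_cases h0 : r 0 = 0 <;> by_cases h1 : r 1 = 0 <;> simp [h0, h1])
  g2b := by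
    apply ext_op; intro φ l r
    simp [mul_apply, os_apply, os'_apply, oa_apply, oa'_apply, ob_apply, ob'_apply]
    all_goals (by_cases h0 : r 0 = 0 <;> by_cases h1 : r 1 = 0 <;> simp [h0, h1])
  g3a := by
    apply ext_op; intro φ l r
    simp [mul_apply, os_apply, os'_apply, oa_apply, oa'_apply, ob_apply, ob'_apply]
    all_goals (by_cases h0 : r 0 = 0 <;> by_cases h1 : r 1 = 0 <;> simp [h0, h1])
  g3b := by
    apply ext_op; intro φ l r
    simp [mul_apply, os_apply, os'_apply, oa_apply, oa'_apply, ob_apply, ob'_apply]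
    all_goals (by_cases h0 : r 0 = 0 <;> by_cases h1 : r 1 = 0 <;> simp [h0, h1])
  g4a := by
    apply ext_op; intro φ l r
    simp [mul_apply, os_apply, os'_apply, oa_apply, oa'_apply, ob_apply, ob'_apply]
    all_goals (by_cases h0 : r 0 = 0 <;> by_cases h1 : r 1 = 0 <;> simp [h0, h1])
  g4b := by
    apply ext_op; intro φ l r
    simp [mul_apply, os_apply, os'_apply, oa_apply, oa'_apply, ob_apply, ob'_apply]
    all_goals (by_cases h0 : r 0 = 0 <;> by_cases h1 : r 1 = 0 <;> simp [h0, h1])
  g5a := by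
    apply ext_op; intro φ l r
    simp [mul_apply, os_apply, os'_apply, oa_apply, of_apply]
    all_goals (by_cases h0 : r 0 = 0 <;> by_cases h1 : r 1 = 0 <;> simp [h0, h1])
  g5b := by
    apply ext_op; intro φ l r
    simp [mul_apply, os_apply, os'_apply, ob_apply, of_apply]
    all_goals (by_cases h0 : r 0 = 0 <;> by_cases h1 : r 1 = 0 <;> simp [h0, h1])
  g6a := by
    apply ext_op; intro φ l r
    simp [mul_apply, os_apply, os'_apply, oa_apply, ot_apply]
    all_goals (by_cases h0 : r 0 = 0 <;> by_cases h1 : r 1 = 0 <;> simp [h0, h1])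
  g6b := by
    apply ext_op; intro φ l r
    simp [mul_apply, os_apply, os'_apply, ob_apply, ot_apply]
    all_goals (by_cases h0 : r 0 = 0 <;> by_cases h1 : r 1 = 0 <;> simp [h0, h1])
  g7a := by simp
  g7b := by simp
  d1 := by
    apply ext_op; intro φ l r
    simp [mul_apply, os_apply, os'_apply, oa_apply, of_apply]
    all_goals (by_cases h0 : r 0 = 0 <;> by_cases h1 : r 1 = 0 <;> simp [h0, h1])
  d2 := by
    apply ext_op; intro φ l r
    simp [mul_apply, os_apply, os'_apply, oa'_apply, of_apply]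
  d3 := by
    apply ext_op; intro φ l r
    simp [mul_apply, os_apply, os'_apply, ob_apply, of_apply]
    all_goals (by_cases h0 : r 0 = 0 <;> by_cases h1 : r 1 = 0 <;> simp [h0, h1])
  d4 := by
    apply ext_op; intro φ l r
    simp [mul_apply, os_apply, os'_apply, ob'_apply, of_apply]
  d5 := by simp
  t1 := by
    apply ext_op; intro φ l r
    simp [mul_apply, oa_apply, ot_apply]
    all_goals (by_cases h0 : r 0 = 0 <;> by_cases h1 : r 1 = 0 <;> simp [h0, h1])
  t2 := by
    apply ext_op; intro φ l r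
    simp only [mul_apply, ob_apply, os_apply, xx_apply, os'_apply, ot_apply]
    by_cases h0 : r 0 = 0
    · simp [h0]
    · obtain ⟨n, hn⟩ := Nat.exists_eq_succ_of_ne_zero h0
      simp [hn, Function.iterate_succ_apply]
  t3 := by
    apply ext_op; intro φ l r
    by_cases h0 : r 0 = 0
    · simp [mul_apply, oa_apply, oa'_apply, ob_apply, ob'_apply, os_apply, os'_apply,
        ot_apply, ot'_apply, h0]
    · have h := fw_iter_one (r 0) h0 (tl r)
      simp [mul_apply, oa_apply, oa'_apply, ob_apply, ob'_apply, os_apply, os'_apply,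
        ot_apply, ot'_apply, h0, h]
  e0 := by simp
  e1 := by simp
  e2 := by simp
  e3 := by simp
  e4 := by simp
  e5 := by simp
  e6 := by simp
  e7 := by simp
  e8 := by simp

end Model

theorem RR_nontrivial : Nontrivial RR := by
  obtain ⟨φ, -⟩ := exists_lift Model.modelSys
  refine ⟨0, 1, ?_⟩
  intro h
  have h1 := congrArg φ h
  rw [map_zero, map_one] at h1
  have h2 := congrArg (fun p : Model.EV => p (fun _ _ => 1) (fun _ => 0) (fun _ => 0)) h1
  simp [Model.one_apply] at h2

end Pool.Agent.Work.MP_4e9880_al
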