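import Pool.Agent.Work.MP_4e9880_al.GroupMain

set_option autoImplicit false
set_option linter.unusedSectionVars false

open scoped commutatorElement

namespace Pool.Agent.Work.MP_4e9880_al

/-- elementary matrix as a unit. -/
def elt {R : Type*} [Ring R] (i j : Fin 5) (h : i ≠ j) (r : R) : (Matrix (Fin 5) (Fin 5) R)ˣ where
  val := 1 + Matrix.single i j r
  inv := 1 - Matrix.single i j r
  val_inv := by
    rw [mul_sub, mul_one, add_mul, one_mul, Matrix.single_mul_single_of_ne (h := h.symm)]
    abel
  inv_val := by
    rw [mul_add, mul_one, sub_mul, one_mul, Matrix.single_mul_single_of_ne (h := h.symm)]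
    abel

/-- The elementary Steinberg system. -/
def eltSys (R : Type*) [Ring R] : StSys R (Matrix (Fin 5) (Fin 5) R)ˣ where
  x i j r := if h : i ≠ j then elt i j h r else 1
  add := by
    intro i j r s h
    simp only [dif_pos h]
    apply Units.ext
    simp only [elt, Units.val_mul]
    rw [mul_add, mul_one, add_mul, one_mul, Matrix.single_mul_single_of_ne (h := h.symm),
      Matrix.single_add]
    abel
  comm := by
    intro i j k l r s hij hkl hjk hil
    simp only [dif_pos hij, dif_pos hkl]
    apply Units.ext
    simp only [elt, Units.val_mul]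
    rw [mul_add, mul_one, add_mul, one_mul, Matrix.single_mul_single_of_ne (h := hjk),
      mul_add, mul_one, add_mul, one_mul, Matrix.single_mul_single_of_ne (h := hil.symm)]
    abel
  mul := by
    intro i j k r s hij hjk hik
    simp only [dif_pos hij, dif_pos hjk, dif_pos hik]
    rw [commutatorElement_def, mul_inv_eq_iff_eq_mul, mul_inv_eq_iff_eq_mul]
    apply Units.ext
    simp only [elt, Units.val_mul]
    simp only [mul_add, mul_one, add_mul, one_mul, Matrix.single_mul_single_same]
    rw [Matrix.single_mul_single_of_ne (h := hik.symm), Matrix.single_mul_single_of_ne (h := hjk.symm)]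
    rw [Matrix.single_mul_single_of_ne (h := hik.symm)]
    simp only [zero_mul, add_zero]
    abel

section

variable {Y : Type} (rel : Set (FA Y × FA Y))

theorem nontriv (hnt : Nontrivial (RQ rel)) : Nontrivial (GG rel) := by
  obtain ⟨φ, hφ⟩ := exists_hom rel (eltSys (RQ rel))
  refine ⟨(SG rel).x 0 1 1, 1, ?_⟩
  intro h
  have h1 := hφ 0 1 1 (by decide)
  rw [h, map_one] at h1
  have h2 := congrArg (fun u : (Matrix (Fin 5) (Fin 5) (RQ rel))ˣ =>
    (u : Matrix (Fin 5) (Fin 5) (RQ rel)) 0 1) h1
  simp [eltSys, elt] at h2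

/-- Cross commutation. -/
theorem cross {R H : Type*} [Ring R] [Group H] (S : StSys R H) (r s t : R)
    (hrt : r * t = 0) (htr : t * r = 0) (hts : t * s = s) (hrs : r * s = 0) (hsr : s * r = 0)
    (i j k l : Fin 5) (hij : i ≠ j) (hkl : k ≠ l) : Commute (S.x i j r) (S.x k l s) := by
  by_cases hjk : j = k
  · subst hjk
    by_cases hil : i = l
    · subst hil
      -- opposite roots
      obtain ⟨p, hpi, hpj, -, -⟩ := exists_ne4 i j i j
      have e : S.x j i s = ⁅S.x j p t, S.x p i s⁆ := by
        rw [S.mul j p i t s hpj.symm hpi hij.symm, hts]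
      rw [e]
      apply Commute.symm
      apply commute_commutator
      · apply Commute.symm
        rw [← commutatorElement_eq_one_iff_commute, S.mul i j p r t hij hpj.symm hpi.symm, hrt,
          S.zero hpi.symm]
      · rw [← commutatorElement_eq_one_iff_commute, S.mul p i j s r hpi hij hpj, hsr,
          S.zero hpj]
    · rw [← commutatorElement_eq_one_iff_commute, S.mul i j l r s hij hkl hil, hrs, S.zero hil]
  · by_cases hil : i = l
    · subst hil
      apply Commute.symm
      rw [← commutatorElement_eq_one_iff_commute, S.mul k i j s r hkl hij (Ne.symm hjk), hsr,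
        S.zero (Ne.symm hjk)]
    · exact S.comm i j k l r s hij hkl hjk hil

variable (e : RQ rel ≃+* RQ rel × RQ rel)

/-- pull a system back along the product decomposition. -/
noncomputable def prodSys : StSys (RQ rel) (GG rel × GG rel) where
  x i j r := ((SG rel).x i j (e r).1, (SG rel).x i j (e r).2)
  add := by
    intro i j r s h
    rw [map_add, Prod.fst_add, Prod.snd_add, (SG rel).add i j _ _ h, (SG rel).add i j _ _ h]
    rfl
  comm := by
    intro i j k l r s hij hkl hjk hil
    exact Prod.ext ((SG rel).comm i j k l _ _ hij hkl hjk hil)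
      ((SG rel).comm i j k l _ _ hij hkl hjk hil)
  mul := by
    intro i j k r s hij hjk hik
    rw [map_mul, Prod.fst_mul, Prod.snd_mul, ← (SG rel).mul i j k _ _ hij hjk hik,
      ← (SG rel).mul i j k _ _ hij hjk hik]
    rfl

noncomputable def sys0 : StSys (RQ rel) (GG rel) where
  x i j r := (SG rel).x i j (e.symm (r, 0))
  add := by
    intro i j r s h
    rw [← (SG rel).add i j _ _ h, ← map_add, Prod.mk_add_mk, add_zero]
  comm := by
    intro i j k l r s hij hkl hjk hil
    exact (SG rel).comm i j k l _ _ hij hkl hjk hil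
  mul := by
    intro i j k r s hij hjk hik
    rw [(SG rel).mul i j k _ _ hij hjk hik, ← map_mul, Prod.mk_mul_mk, mul_zero]

noncomputable def sys1 : StSys (RQ rel) (GG rel) where
  x i j r := (SG rel).x i j (e.symm (0, r))
  add := by
    intro i j r s h
    rw [← (SG rel).add i j _ _ h, ← map_add, Prod.mk_add_mk, add_zero]
  comm := by
    intro i j k l r s hij hkl hjk hil
    exact (SG rel).comm i j k l _ _ hij hkl hjk hil
  mul := by
    intro i j k r s hij hjk hik
    rw [(SG rel).mul i j k _ _ hij hjk hik, ← map_mul, Prod.mk_mul_mk, mul_zero]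

include e in
theorem square : Nonempty (GG rel ≃* GG rel × GG rel) := by
  obtain ⟨Φ, hΦ⟩ := exists_hom rel (prodSys rel e)
  obtain ⟨Ψ0, hΨ0⟩ := exists_hom rel (sys0 rel e)
  obtain ⟨Ψ1, hΨ1⟩ := exists_hom rel (sys1 rel e)
  have hcomm : ∀ a b, Commute (Ψ0 a) (Ψ1 b) := by
    have gen : ∀ i j r k l s, i ≠ j → k ≠ l →
        Commute (Ψ0 ((SG rel).x i j r)) (Ψ1 ((SG rel).x k l s)) := by
      intro i j r k l s hij hkl
      rw [hΨ0 i j r hij, hΨ1 k l s hkl]
      apply cross (SG rel) _ _ (e.symm (0, 1)) _ _ _ _ _ i j k l hij hkl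
      · rw [← map_mul]; simp
      · rw [← map_mul]; simp
      · rw [← map_mul]; simp
      · rw [← map_mul]; simp
      · rw [← map_mul]; simp
    have top := closure_SG rel
    intro a b
    have ha : a ∈ Subgroup.closure {g : GG rel | ∃ i j r, i ≠ j ∧ g = (SG rel).x i j r} := by
      rw [top]; trivial
    have hb : b ∈ Subgroup.closure {g : GG rel | ∃ i j r, i ≠ j ∧ g = (SG rel).x i j r} := by
      rw [top]; trivial
    induction ha using Subgroup.closure_induction with
    | mem x hx =>
      obtain ⟨i, j, r, hij, rfl⟩ := hx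
      induction hb using Subgroup.closure_induction with
      | mem y hy =>
        obtain ⟨k, l, s, hkl, rfl⟩ := hy
        exact gen i j r k l s hij hkl
      | one => rw [map_one]; exact Commute.one_right _
      | mul x y _ _ hx hy => rw [map_mul]; exact hx.mul_right hy
      | inv x _ hx => rw [map_inv]; exact hx.inv_right
    | one => rw [map_one]; exact Commute.one_left _
    | mul x y _ _ hx hy => rw [map_mul]; exact hx.mul_left hy
    | inv x _ hx => rw [map_inv]; exact hx.inv_left
  let Ψ : GG rel × GG rel →* GG rel := MonoidHom.noncommCoprod Ψ0 Ψ1 hcomm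
  have h1 : Ψ.comp Φ = MonoidHom.id _ := by
    apply hom_ext
    intro i j r hij
    rw [MonoidHom.comp_apply, hΦ i j r hij]
    change Ψ0 ((SG rel).x i j (e r).1) * Ψ1 ((SG rel).x i j (e r).2) = _
    rw [hΨ0 i j _ hij, hΨ1 i j _ hij]
    change (SG rel).x i j (e.symm ((e r).1, 0)) * (SG rel).x i j (e.symm (0, (e r).2)) = _
    rw [← (SG rel).add i j _ _ hij, ← map_add, Prod.mk_add_mk, add_zero, zero_add]
    simp
  have h2a : Φ.comp Ψ0 = MonoidHom.inl _ _ := by
    apply hom_ext
    intro i j r hij
    rw [MonoidHom.comp_apply, hΨ0 i j r hij]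
    change Φ ((SG rel).x i j (e.symm (r, 0))) = _
    rw [hΦ i j _ hij]
    change ((SG rel).x i j (e (e.symm (r, 0))).1, (SG rel).x i j (e (e.symm (r, 0))).2) = _
    rw [RingEquiv.apply_symm_apply, (SG rel).zero hij]
    rfl
  have h2b : Φ.comp Ψ1 = MonoidHom.inr _ _ := by
    apply hom_ext
    intro i j r hij
    rw [MonoidHom.comp_apply, hΨ1 i j r hij]
    change Φ ((SG rel).x i j (e.symm (0, r))) = _
    rw [hΦ i j _ hij]
    change ((SG rel).x i j (e (e.symm (0, r))).1, (SG rel).x i j (e (e.symm (0, r))).2) = _
    rw [RingEquiv.apply_symm_apply, (SG rel).zero hij]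
    rfl
  have h2 : Φ.comp Ψ = MonoidHom.id _ := by
    apply MonoidHom.ext
    rintro ⟨a, b⟩
    rw [MonoidHom.comp_apply]
    change Φ (Ψ0 a * Ψ1 b) = (a, b)
    rw [map_mul, ← MonoidHom.comp_apply, ← MonoidHom.comp_apply, h2a, h2b]
    simp
  exact ⟨MonoidHom.toMulEquiv Φ Ψ h1 h2⟩

/-- Finite presentability passes to quotients by finitely many relators. -/
theorem fp_quotient {P : Type*} [Group P] (T : Set P) (hT : T.Finite) {n : ℕ}
    (f : FreeGroup (Fin n) →* P) (hf : Function.Surjective f)
    (S : Finset (FreeGroup (Fin n)))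
    (hS : Subgroup.normalClosure (S : Set (FreeGroup (Fin n))) = f.ker) :
    ∃ (g : FreeGroup (Fin n) →* P ⧸ Subgroup.normalClosure T), Function.Surjective g ∧
      ∃ S' : Finset (FreeGroup (Fin n)),
        Subgroup.normalClosure (S' : Set (FreeGroup (Fin n))) = g.ker := by
  classical
  refine ⟨(QuotientGroup.mk' _).comp f, ?_, ?_⟩
  · exact (QuotientGroup.mk'_surjective _).comp hf
  · let c : P → FreeGroup (Fin n) := Function.surjInv hf
    have hc : ∀ p, f (c p) = p := Function.surjInv_eq hf
    refine ⟨S ∪ (hT.toFinset.image c), ?_⟩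
    apply le_antisymm
    · apply Subgroup.normalClosure_le_normal
      intro x hx
      change QuotientGroup.mk' _ (f x) = 1
      rw [QuotientGroup.mk'_apply, QuotientGroup.eq_one_iff]
      rw [Finset.coe_union] at hx
      rcases hx with hx | hx
      · have : x ∈ f.ker := by
          rw [← hS]; exact Subgroup.subset_normalClosure hx
        have h1 : f x = 1 := this
        rw [h1]; exact Subgroup.one_mem _
      · simp only [Finset.coe_image, Set.Finite.coe_toFinset, Set.mem_image] at hx
        obtain ⟨t, ht, rfl⟩ := hx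
        rw [hc]
        exact Subgroup.subset_normalClosure ht
    · intro x hx
      have hx1 : f x ∈ Subgroup.normalClosure T := by
        have : QuotientGroup.mk' (Subgroup.normalClosure T) (f x) = 1 := hx
        rwa [QuotientGroup.mk'_apply, QuotientGroup.eq_one_iff] at this
      have himg : f '' ((hT.toFinset.image c : Finset _) : Set (FreeGroup (Fin n))) = T := by
        ext t
        simp only [Finset.coe_image, Set.Finite.coe_toFinset, Set.mem_image]
        constructor
        · rintro ⟨_, ⟨t', ht', rfl⟩, rfl⟩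
          rw [hc]; exact ht'
        · intro ht
          exact ⟨c t, ⟨t, ht, rfl⟩, hc t⟩
      have hmap := Subgroup.map_normalClosure
        ((hT.toFinset.image c : Finset _) : Set (FreeGroup (Fin n))) f hf
      rw [himg] at hmap
      rw [← hmap] at hx1
      obtain ⟨y, hy, hyx⟩ := hx1
      have h3 : x * y⁻¹ ∈ Subgroup.normalClosure (S : Set (FreeGroup (Fin n))) := by
        rw [hS]
        change f (x * y⁻¹) = 1
        rw [map_mul, map_inv, hyx, mul_inv_cancel]
      have hle1 : Subgroup.normalClosure (S : Set (FreeGroup (Fin n))) ≤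
          Subgroup.normalClosure ((S ∪ (hT.toFinset.image c) : Finset _) :
            Set (FreeGroup (Fin n))) := by
        apply Subgroup.normalClosure_mono
        intro z hz
        rw [Finset.coe_union]; exact Or.inl hz
      have hle2 : Subgroup.normalClosure ((hT.toFinset.image c : Finset _) :
            Set (FreeGroup (Fin n))) ≤
          Subgroup.normalClosure ((S ∪ (hT.toFinset.image c) : Finset _) :
            Set (FreeGroup (Fin n))) := by
        apply Subgroup.normalClosure_mono
        intro z hz
        rw [Finset.coe_union]; exact Or.inr hz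
      have : x = (x * y⁻¹) * y := by group
      rw [this]
      exact Subgroup.mul_mem _ (hle1 h3) (hle2 hy)

theorem fp_presented {α : Type} [Finite α] (rels : Set (FreeGroup α)) (hr : rels.Finite) :
    ∃ (n : ℕ) (f : FreeGroup (Fin n) →* PresentedGroup rels), Function.Surjective f ∧
      ∃ S : Finset (FreeGroup (Fin n)),
        Subgroup.normalClosure (S : Set (FreeGroup (Fin n))) = f.ker := by
  classical
  obtain ⟨n, ⟨ε⟩⟩ := Finite.exists_equiv_fin α
  let E : FreeGroup (Fin n) ≃* FreeGroup α := FreeGroup.freeGroupCongr ε.symm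
  refine ⟨n, (PresentedGroup.mk rels).comp E.toMonoidHom, ?_, ?_⟩
  · exact (PresentedGroup.mk_surjective rels).comp E.surjective
  · refine ⟨hr.toFinset.image E.symm, ?_⟩
    have h1 := Subgroup.map_normalClosure rels E.symm.toMonoidHom E.symm.surjective
    have h2 : ((hr.toFinset.image E.symm : Finset _) : Set (FreeGroup (Fin n))) =
        (E.symm.toMonoidHom : FreeGroup α → FreeGroup (Fin n)) '' rels := by
      simp
    rw [h2, ← h1]
    ext x
    rw [Subgroup.mem_map]
    constructor
    · rintro ⟨y, hy, rfl⟩
      change PresentedGroup.mk rels (E (E.symm y)) = 1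
      rw [MulEquiv.apply_symm_apply]
      exact PresentedGroup.mk_eq_one_iff.mpr hy
    · intro hx
      have hx1 : PresentedGroup.mk rels (E x) = 1 := hx
      refine ⟨E x, PresentedGroup.mk_eq_one_iff.mp hx1, ?_⟩
      change E.symm (E x) = x
      rw [MulEquiv.symm_apply_apply]

theorem main_of_ring [Finite Y] (hfin : rel.Finite) (hnt : Nontrivial (RQ rel))
    (e : RQ rel ≃+* RQ rel × RQ rel) :
    ∃ (G : Type) (_ : Group G), Nontrivial G ∧
      (∃ (n : ℕ) (f : FreeGroup (Fin n) →* G), Function.Surjective f ∧
        ∃ S : Finset (FreeGroup (Fin n)),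
          Subgroup.normalClosure (S : Set (FreeGroup (Fin n))) = f.ker) ∧
      Nonempty (G ≃* G × G) := by
  refine ⟨GG rel, inferInstance, nontriv rel hnt, ?_, square rel e⟩
  obtain ⟨n, f, hf, S, hS⟩ := fp_presented (baseRels Y) baseRels_finite
  obtain ⟨g, hg, hS'⟩ := fp_quotient (extra rel) (extra_finite rel hfin) f hf S hS
  exact ⟨n, g, hg, hS'⟩

end

end Pool.Agent.Work.MP_4e9880_al
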