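import Mathlib

set_option autoImplicit false
set_option linter.unusedSectionVars false

open scoped commutatorElement

namespace Pool.Agent.Work.MP_4e9880_al

section Basic

variable {G : Type*} [Group G]

/-- The basic commutator identity used for re-bracketing. -/
theorem comm_lemma {A B C D F : G} (hAC : Commute A C) (hD : ⁅A, B⁆ = D) (hF : ⁅B, C⁆ = F)
    (hDF : Commute D F) : ⁅D, C⁆ = ⁅F⁻¹, A⁆ := by
  have h1 : A * F * A⁻¹ = F * ⁅D, C⁆ := by
    have e1 : A * F * A⁻¹ = D * F * C * D⁻¹ * C⁻¹ := by
      rw [← hD, ← hF]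
      simp only [commutatorElement_def]
      have hAC' : A * C = C * A := hAC
      have hAC2 : A⁻¹ * C⁻¹ = C⁻¹ * A⁻¹ := by
        have := congrArg (fun x => x⁻¹) hAC'
        simpa [mul_inv_rev] using this.symm
      -- both sides reduce to A B C B⁻¹ C⁻¹ A⁻¹
      have hAC3 : A⁻¹ * C = C * A⁻¹ := by
        have : Commute A⁻¹ C := hAC.inv_left
        exact this
      calc A * (B * C * B⁻¹ * C⁻¹) * A⁻¹
          = A * B * C * B⁻¹ * (C⁻¹ * A⁻¹) := by group
        _ = A * B * C * B⁻¹ * (A⁻¹ * C⁻¹) := by rw [hAC2]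
        _ = A * B * (C * A⁻¹) * (A * B⁻¹ * A⁻¹ * C⁻¹) := by group
        _ = A * B * (A⁻¹ * C) * (A * B⁻¹ * A⁻¹ * C⁻¹) := by rw [hAC3]
        _ = A * B * A⁻¹ * B⁻¹ * (B * C * B⁻¹ * C⁻¹) * C * (A * B * A⁻¹ * B⁻¹)⁻¹ * C⁻¹ := by
            group
    rw [e1, commutatorElement_def]
    have : D * F = F * D := hDF
    rw [this]; group
  rw [commutatorElement_def (F⁻¹) A]
  have : ⁅D, C⁆ = F⁻¹ * (A * F * A⁻¹) := by rw [h1]; group
  rw [this]; group

theorem commute_commutator {A B C : G} (h1 : Commute A C) (h2 : Commute B C) :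
    Commute ⁅A, B⁆ C := by
  rw [commutatorElement_def]
  exact ((h1.mul_left h2).mul_left h1.inv_left).mul_left h2.inv_left

end Basic

theorem exists_ne4 : ∀ i j k l : Fin 5, ∃ p : Fin 5, p ≠ i ∧ p ≠ j ∧ p ≠ k ∧ p ≠ l := by
  decide

/-- A chosen third index. -/
def third (i k : Fin 5) : Fin 5 :=
  if i ≠ 0 ∧ k ≠ 0 then 0 else if i ≠ 1 ∧ k ≠ 1 then 1 else 2

theorem third_ne : ∀ i k : Fin 5, third i k ≠ i ∧ third i k ≠ k := by decide

section Words

variable {H : Type*} [Group H] {Y : Type*}

/-- The finitely many relation schemes. -/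
structure Base (X : Fin 5 → Fin 5 → Option Y → H) : Prop where
  sq : ∀ i j u, i ≠ j → X i j u * X i j u = 1
  comm : ∀ i j k l u v, i ≠ j → k ≠ l → j ≠ k → i ≠ l → Commute (X i j u) (X k l v)
  one_mul : ∀ i j k v, i ≠ j → j ≠ k → i ≠ k → ⁅X i j none, X j k v⁆ = X i k v
  mul_one : ∀ i j k v, i ≠ j → j ≠ k → i ≠ k → ⁅X i j v, X j k none⁆ = X i k v

/-- Root elements attached to words. -/
def xw (X : Fin 5 → Fin 5 → Option Y → H) : Fin 5 → Fin 5 → List Y → H
  | i, k, [] => X i k none
  | i, k, y :: w => ⁅X i (third i k) (some y), xw X (third i k) k w⁆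

variable {X : Fin 5 → Fin 5 → Option Y → H}

theorem xw_nil (i k : Fin 5) : xw X i k [] = X i k none := rfl

theorem xw_single (hX : Base X) {i k : Fin 5} (h : i ≠ k) (y : Y) :
    xw X i k [y] = X i k (some y) := by
  have := third_ne i k
  rw [xw, xw, hX.mul_one i (third i k) k (some y) this.1.symm this.2 h]

/-- Steinberg relations for words of total length at most `m`. -/
structure Good (X : Fin 5 → Fin 5 → Option Y → H) (m : ℕ) : Prop where
  sq : ∀ i j u, i ≠ j → u.length ≤ m → xw X i j u * xw X i j u = 1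
  comm : ∀ i j k l u v, i ≠ j → k ≠ l → j ≠ k → i ≠ l → u.length + v.length ≤ m →
    Commute (xw X i j u) (xw X k l v)
  mul : ∀ i j k u v, i ≠ j → j ≠ k → i ≠ k → u.length + v.length ≤ m →
    ⁅xw X i j u, xw X j k v⁆ = xw X i k (u ++ v)

theorem good_one (hX : Base X) : Good X 1 := by
  refine ⟨?_, ?_, ?_⟩
  · intro i j u hij hu
    match u, hu with
    | [], _ => exact hX.sq i j none hij
    | [y], _ => rw [xw_single hX hij]; exact hX.sq i j _ hij
    | _ :: _ :: _, h => simp at h
  · intro i j k l u v hij hkl hjk hil huv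
    match u, v, huv with
    | [], [], _ => exact hX.comm i j k l none none hij hkl hjk hil
    | [y], [], _ =>
      rw [xw_single hX hij]; exact hX.comm i j k l _ none hij hkl hjk hil
    | [], [y], _ =>
      rw [xw_single hX hkl]; exact hX.comm i j k l none _ hij hkl hjk hil
    | [_], _ :: _, h => simp at h
    | _ :: _ :: _, _, h => simp at h; omega
    | [], _ :: _ :: _, h => simp at h
  · intro i j k u v hij hjk hik huv
    match u, v, huv with
    | [], [], _ => exact hX.one_mul i j k none hij hjk hik
    | [y], [], _ =>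
      rw [xw_single hX hij, List.append_nil, xw_single hX hik]
      exact hX.mul_one i j k _ hij hjk hik
    | [], [y], _ =>
      rw [xw_single hX hjk, List.nil_append, xw_single hX hik]
      exact hX.one_mul i j k _ hij hjk hik
    | [_], _ :: _, h => simp at h
    | _ :: _ :: _, _, h => simp at h; omega
    | [], _ :: _ :: _, h => simp at h

section Step

variable {m : ℕ}

theorem inv_eq_of_sq {a : H} (h : a * a = 1) : a⁻¹ = a := by
  exact inv_eq_of_mul_eq_one_left h

/-- commutation for total length `m+1`, both of length at most `m`. -/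
theorem comm_a1 (hX : Base X) (hm : 1 ≤ m) (hg : Good X m) (i j k l : Fin 5) (u v : List Y)
    (hij : i ≠ j) (hkl : k ≠ l) (hjk : j ≠ k) (hil : i ≠ l)
    (huv : u.length + v.length ≤ m + 1) (hu : u.length ≤ m) (hv : v.length ≤ m) :
    Commute (xw X i j u) (xw X k l v) := by
  -- helper for the case where the left word has length at least two
  have key : ∀ (i j k l : Fin 5) (u v : List Y), i ≠ j → k ≠ l → j ≠ k → i ≠ l →
      u.length + v.length ≤ m + 1 → u.length ≤ m → v.length ≤ m → 2 ≤ u.length →
      Commute (xw X i j u) (xw X k l v) := by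
    intro i j k l u v hij hkl hjk hil huv hu hv h2
    obtain ⟨p, hpi, hpj, hpk, hpl⟩ := exists_ne4 i j k l
    match u, h2, hu, huv with
    | y :: u', h2, hu, huv =>
      simp only [List.length_cons] at h2 hu huv
      have e := hg.mul i p j [y] u' hpi.symm hpj hij (by simp; omega)
      rw [List.singleton_append] at e
      rw [← e]
      apply commute_commutator
      · exact hg.comm i p k l [y] v hpi.symm hkl hpk hil (by simp; omega)
      · exact hg.comm p j k l u' v hpj hkl hjk hpl (by omega)
  by_cases h2 : 2 ≤ u.length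
  · exact key i j k l u v hij hkl hjk hil huv hu hv h2
  by_cases h3 : 2 ≤ v.length
  · exact (key k l i j v u hkl hij hil.symm hjk.symm (by omega) hv hu h3).symm
  -- both of length at most one
  by_cases h4 : u.length + v.length ≤ m
  · exact hg.comm i j k l u v hij hkl hjk hil h4
  match u, v, h2, h3, h4 with
  | [y], [z], _, _, _ =>
    rw [xw_single hX hij, xw_single hX hkl]
    exact hX.comm i j k l _ _ hij hkl hjk hil
  | [], [], _, _, h => exact absurd (by simp) h
  | [], [_], _, _, h => exact absurd (by simpa using hm) h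
  | [_], [], _, _, h => exact absurd (by simpa using hm) h
  | _ :: _ :: _, _, h, _, _ => simp at h
  | _, _ :: _ :: _, _, h, _ => simp at h

/-- `Z_j = Z_l⁻¹`. -/
theorem indep_b1 (hX : Base X) (hm : 1 ≤ m) (hg : Good X m) (i j k l : Fin 5) (u v : List Y)
    (hij : i ≠ j) (hik : i ≠ k) (hil : i ≠ l) (hjk : j ≠ k) (hjl : j ≠ l) (hkl : k ≠ l)
    (huv : u.length + v.length ≤ m + 1) (hu : u.length ≤ m) (hv : v.length ≤ m) :
    ⁅xw X i j u, xw X j k v⁆ = ⁅xw X i l u, xw X l k v⁆⁻¹ := by
  have hD : ⁅xw X i l u, xw X l j []⁆ = xw X i j u := by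
    have := hg.mul i l j u [] hil hjl.symm hij (by simpa using hu)
    rwa [List.append_nil] at this
  have hF : ⁅xw X l j [], xw X j k v⁆ = xw X l k v := by
    have := hg.mul l j k [] v hjl.symm hjk hkl.symm (by simpa using hv)
    rwa [List.nil_append] at this
  have h := comm_lemma (comm_a1 hX hm hg i l j k u v hil hjk hjl.symm hik huv hu hv) hD hF
    (comm_a1 hX hm hg i j l k u v hij hkl.symm hjl hik huv hu hv)
  rw [h, inv_eq_of_sq (hg.sq l k v hkl.symm hv), commutatorElement_inv]

theorem indep (hX : Base X) (hm : 1 ≤ m) (hg : Good X m) (i j k l : Fin 5) (u v : List Y)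
    (hij : i ≠ j) (hik : i ≠ k) (hil : i ≠ l) (hjk : j ≠ k) (hkl : k ≠ l)
    (huv : u.length + v.length ≤ m + 1) (hu : u.length ≤ m) (hv : v.length ≤ m) :
    ⁅xw X i j u, xw X j k v⁆ = ⁅xw X i l u, xw X l k v⁆ := by
  by_cases hjl : j = l
  · rw [hjl]
  obtain ⟨p, hpi, hpj, hpk, hpl⟩ := exists_ne4 i j k l
  have h1 := indep_b1 hX hm hg i j k p u v hij hik hpi.symm hjk hpj.symm hpk.symm huv hu hv
  have h2 := indep_b1 hX hm hg i l k p u v hil hik hpi.symm hkl.symm hpl.symm hpk.symm huv hu hv
  rw [h1, h2]

theorem Zsq (hX : Base X) (hm : 1 ≤ m) (hg : Good X m) (i j k : Fin 5) (u v : List Y)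
    (hij : i ≠ j) (hik : i ≠ k) (hjk : j ≠ k)
    (huv : u.length + v.length ≤ m + 1) (hu : u.length ≤ m) (hv : v.length ≤ m) :
    ⁅xw X i j u, xw X j k v⁆ * ⁅xw X i j u, xw X j k v⁆ = 1 := by
  obtain ⟨p, hpi, hpj, hpk, -⟩ := exists_ne4 i j k k
  have h1 := indep_b1 hX hm hg i j k p u v hij hik hpi.symm hjk hpj.symm hpk.symm huv hu hv
  have h2 := indep hX hm hg i j k p u v hij hik hpi.symm hjk hpk.symm huv hu hv
  nth_rewrite 1 [h1]
  rw [h2]; group

/-- moving one letter across. -/
theorem move (hX : Base X) (hm : 1 ≤ m) (hg : Good X m) (i j k l : Fin 5) (u v : List Y) (y : Y)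
    (hij : i ≠ j) (hik : i ≠ k) (hil : i ≠ l) (hjk : j ≠ k) (hjl : j ≠ l) (hkl : k ≠ l)
    (huv : u.length + v.length + 1 = m + 1) (hu : 1 ≤ u.length) (hv : 1 ≤ v.length) :
    ⁅xw X i j (u ++ [y]), xw X j k v⁆ = ⁅xw X i l u, xw X l k (y :: v)⁆ := by
  have hD : ⁅xw X i l u, xw X l j [y]⁆ = xw X i j (u ++ [y]) :=
    hg.mul i l j u [y] hil hjl.symm hij (by simp; omega)
  have hF : ⁅xw X l j [y], xw X j k v⁆ = xw X l k (y :: v) := by
    have := hg.mul l j k [y] v hjl.symm hjk hkl.symm (by simp; omega)
    rwa [List.singleton_append] at this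
  have hAC : Commute (xw X i l u) (xw X j k v) :=
    hg.comm i l j k u v hil hjk hjl.symm hik (by omega)
  have hDF : Commute (xw X i j (u ++ [y])) (xw X l k (y :: v)) := by
    obtain ⟨p, hpi, hpj, hpk, hpl⟩ := exists_ne4 i j k l
    have e := hg.mul l p k [y] v hpl.symm hpk hkl.symm (by simp; omega)
    rw [List.singleton_append] at e
    rw [← e]
    apply Commute.symm
    apply commute_commutator
    · apply Commute.symm
      exact comm_a1 hX hm hg i j l p (u ++ [y]) [y] hij hpl.symm hjl hpi.symm
        (by simp; omega) (by simp; omega) (by simp; omega)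
    · apply Commute.symm
      exact comm_a1 hX hm hg i j p k (u ++ [y]) v hij hpk hpj.symm hik
        (by simp; omega) (by simp; omega) (by omega)
  have h := comm_lemma hAC hD hF hDF
  have hs : xw X l k (y :: v) * xw X l k (y :: v) = 1 :=
    hg.sq l k (y :: v) hkl.symm (by simp; omega)
  rw [h, inv_eq_of_sq hs, ← commutatorElement_inv]
  apply inv_eq_of_sq
  exact Zsq hX hm hg i l k u (y :: v) hil hik hkl.symm (by simp; omega) (by omega) (by simp; omega)

/-- all splittings of a word of length `m+1` agree. -/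
theorem split_eq (hX : Base X) (hm : 1 ≤ m) (hg : Good X m) (i k : Fin 5) (hik : i ≠ k) :
    ∀ (s : List Y) (u v : List Y) (j j' : Fin 5), i ≠ j → j ≠ k → i ≠ j' → j' ≠ k →
      1 ≤ u.length → 1 ≤ v.length → u.length + s.length + v.length = m + 1 →
      ⁅xw X i j u, xw X j k (s ++ v)⁆ = ⁅xw X i j' (u ++ s), xw X j' k v⁆ := by
  intro s
  induction s with
  | nil =>
    intro u v j j' hij hjk hij' hjk' hu hv hl
    simp only [List.length_nil, add_zero] at hl
    rw [List.nil_append, List.append_nil]
    exact indep hX hm hg i j k j' u v hij hik hij' hjk hjk'.symm (by omega) (by omega) (by omega)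
  | cons z s ih =>
    intro u v j j' hij hjk hij' hjk' hu hv hl
    simp only [List.length_cons] at hl
    obtain ⟨p, hpi, hpj, hpk, -⟩ := exists_ne4 i j k k
    have h1 := ih (u ++ [z]) v p j' hpi.symm hpk hij' hjk' (by simp) hv (by simp; omega)
    have h2 := move hX hm hg i p k j u (s ++ v) z hpi.symm hik hij hpk hpj hjk.symm
      (by simp; omega) hu (by simp; omega)
    rw [List.cons_append, ← h2, h1]
    simp

/-- the value on a word of length `m+1`. -/
theorem xw_eq (hX : Base X) (hm : 1 ≤ m) (hg : Good X m) (i j k : Fin 5) (u v : List Y)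
    (hij : i ≠ j) (hjk : j ≠ k) (hik : i ≠ k) (hu : 1 ≤ u.length) (hv : 1 ≤ v.length)
    (hl : u.length + v.length = m + 1) :
    ⁅xw X i j u, xw X j k v⁆ = xw X i k (u ++ v) := by
  match u, hu, hl with
  | y :: u', _, hl =>
    simp only [List.length_cons] at hl
    have ht := third_ne i k
    have h := split_eq hX hm hg i k hik u' [y] v (third i k) j ht.1.symm ht.2 hij hjk
      (by simp) hv (by simp; omega)
    rw [List.singleton_append] at h
    rw [← h, xw_single hX ht.1.symm, List.cons_append]
    rfl

theorem sq_step (hX : Base X) (hm : 1 ≤ m) (hg : Good X m) (i k : Fin 5) (w : List Y)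
    (hik : i ≠ k) (hw : w.length = m + 1) : xw X i k w * xw X i k w = 1 := by
  match w, hw with
  | y :: w', hw =>
    simp only [List.length_cons] at hw
    have ht := third_ne i k
    have h := xw_eq hX hm hg i (third i k) k [y] w' ht.1.symm ht.2 hik (by simp) (by omega)
      (by simp; omega)
    rw [List.singleton_append] at h
    rw [← h]
    exact Zsq hX hm hg i (third i k) k [y] w' ht.1.symm hik ht.2 (by simp; omega) (by simp; omega)
      (by omega)

theorem mul_nil_left (hX : Base X) (hm : 1 ≤ m) (hg : Good X m) (i j k : Fin 5) (w : List Y)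
    (hij : i ≠ j) (hjk : j ≠ k) (hik : i ≠ k) (hw : w.length = m + 1) :
    ⁅xw X i j [], xw X j k w⁆ = xw X i k w := by
  match w, hw with
  | y :: w', hw =>
    simp only [List.length_cons] at hw
    obtain ⟨l, hli, hlj, hlk, -⟩ := exists_ne4 i j k k
    obtain ⟨p, hpi, hpj, hpk, hpl⟩ := exists_ne4 i j k l
    have hD : ⁅xw X i j [], xw X j l [y]⁆ = xw X i l [y] :=
      hg.mul i j l [] [y] hij hlj.symm hli.symm (by simp; omega)
    have hF : ⁅xw X j l [y], xw X l k w'⁆ = xw X j k (y :: w') := by
      have := xw_eq hX hm hg j l k [y] w' hlj.symm hlk hjk (by simp) (by omega) (by simp; omega)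
      rwa [List.singleton_append] at this
    have hF' : ⁅xw X j p [y], xw X p k w'⁆ = xw X j k (y :: w') := by
      have := xw_eq hX hm hg j p k [y] w' hpj.symm hpk hjk (by simp) (by omega) (by simp; omega)
      rwa [List.singleton_append] at this
    have hAC : Commute (xw X i j []) (xw X l k w') :=
      hg.comm i j l k [] w' hij hlk hlj.symm hik (by simp; omega)
    have hDF : Commute (xw X i l [y]) (xw X j k (y :: w')) := by
      rw [← hF']
      apply Commute.symm
      apply commute_commutator
      · apply Commute.symm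
        exact comm_a1 hX hm hg i l j p [y] [y] hli.symm hpj.symm hlj hpi.symm
          (by simp; omega) (by simp; omega) (by simp; omega)
      · apply Commute.symm
        exact comm_a1 hX hm hg i l p k [y] w' hli.symm hpk hpl.symm hik
          (by simp; omega) (by simp; omega) (by omega)
    have h := comm_lemma hAC hD hF hDF
    have hE : ⁅xw X i l [y], xw X l k w'⁆ = xw X i k (y :: w') := by
      have := xw_eq hX hm hg i l k [y] w' hli.symm hlk hik (by simp) (by omega) (by simp; omega)
      rwa [List.singleton_append] at this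
    have hs1 := sq_step hX hm hg j k (y :: w') hjk (by simp; omega)
    have hs2 := sq_step hX hm hg i k (y :: w') hik (by simp; omega)
    rw [hE, inv_eq_of_sq hs1, ← commutatorElement_inv] at h
    rw [← inv_eq_of_sq hs2, h, inv_inv]

theorem mul_nil_right (hX : Base X) (hm : 1 ≤ m) (hg : Good X m) (i j k : Fin 5) (w : List Y)
    (hij : i ≠ j) (hjk : j ≠ k) (hik : i ≠ k) (hw : w.length = m + 1) :
    ⁅xw X i j w, xw X j k []⁆ = xw X i k w := by
  rcases List.eq_nil_or_concat' w with rfl | ⟨u, z, rfl⟩
  · simp at hw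
  · simp only [List.length_append, List.length_cons, List.length_nil, zero_add] at hw
    obtain ⟨l, hli, hlj, hlk, -⟩ := exists_ne4 i j k k
    obtain ⟨p, hpi, hpj, hpk, hpl⟩ := exists_ne4 i j k l
    have hD : ⁅xw X i l u, xw X l j [z]⁆ = xw X i j (u ++ [z]) :=
      xw_eq hX hm hg i l j u [z] hli.symm hlj hij (by omega) (by simp) (by simp; omega)
    have hD' : ⁅xw X i p u, xw X p j [z]⁆ = xw X i j (u ++ [z]) :=
      xw_eq hX hm hg i p j u [z] hpi.symm hpj hij (by omega) (by simp) (by simp; omega)
    have hF : ⁅xw X l j [z], xw X j k []⁆ = xw X l k [z] :=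
      hg.mul l j k [z] [] hlj hjk hlk (by simp; omega)
    have hAC : Commute (xw X i l u) (xw X j k []) :=
      hg.comm i l j k u [] hli.symm hjk hlj hik (by simp; omega)
    have hDF : Commute (xw X i j (u ++ [z])) (xw X l k [z]) := by
      rw [← hD']
      apply commute_commutator
      · exact comm_a1 hX hm hg i p l k u [z] hpi.symm hlk hpl hik
          (by simp; omega) (by omega) (by simp; omega)
      · exact comm_a1 hX hm hg p j l k [z] [z] hpj hlk hlj.symm hpk
          (by simp; omega) (by simp; omega) (by simp; omega)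
    have h := comm_lemma hAC hD hF hDF
    have hE : ⁅xw X i l u, xw X l k [z]⁆ = xw X i k (u ++ [z]) :=
      xw_eq hX hm hg i l k u [z] hli.symm hlk hik (by omega) (by simp) (by simp; omega)
    have hs1 := hg.sq l k [z] hlk (by simp; omega)
    have hs2 := sq_step hX hm hg i k (u ++ [z]) hik (by simp; omega)
    rw [h, inv_eq_of_sq hs1, ← commutatorElement_inv, hE, inv_eq_of_sq hs2]

theorem comm_nil (hX : Base X) (hm : 1 ≤ m) (hg : Good X m) (i j k l : Fin 5) (w : List Y)
    (hij : i ≠ j) (hkl : k ≠ l) (hjk : j ≠ k) (hil : i ≠ l) (hw : w.length = m + 1) :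
    Commute (xw X i j w) (xw X k l []) := by
  match w, hw with
  | y :: w', hw =>
    simp only [List.length_cons] at hw
    obtain ⟨p, hpi, hpj, hpk, hpl⟩ := exists_ne4 i j k l
    have h := xw_eq hX hm hg i p j [y] w' hpi.symm hpj hij (by simp) (by omega) (by simp; omega)
    rw [List.singleton_append] at h
    rw [← h]
    apply commute_commutator
    · exact hg.comm i p k l [y] [] hpi.symm hkl hpk hil (by simp; omega)
    · exact hg.comm p j k l w' [] hpj hkl hjk hpl (by simp; omega)

theorem good_succ (hX : Base X) (hm : 1 ≤ m) (hg : Good X m) : Good X (m + 1) := by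
  refine ⟨?_, ?_, ?_⟩
  · intro i j u hij hu
    by_cases h : u.length ≤ m
    · exact hg.sq i j u hij h
    · exact sq_step hX hm hg i j u hij (by omega)
  · intro i j k l u v hij hkl hjk hil huv
    by_cases h : u.length ≤ m
    · by_cases h' : v.length ≤ m
      · exact comm_a1 hX hm hg i j k l u v hij hkl hjk hil huv h h'
      · have hu : u = [] := List.length_eq_zero_iff.mp (by omega)
        subst hu
        exact (comm_nil hX hm hg k l i j v hkl hij hil.symm hjk.symm (by omega)).symm
    · have hv : v = [] := List.length_eq_zero_iff.mp (by omega)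
      subst hv
      exact comm_nil hX hm hg i j k l u hij hkl hjk hil (by omega)
  · intro i j k u v hij hjk hik huv
    by_cases h : u.length + v.length ≤ m
    · exact hg.mul i j k u v hij hjk hik h
    · by_cases h1 : u.length = 0
      · have hu : u = [] := List.length_eq_zero_iff.mp h1
        subst hu
        rw [List.nil_append]
        exact mul_nil_left hX hm hg i j k v hij hjk hik (by simp at h huv ⊢; omega)
      · by_cases h2 : v.length = 0
        · have hv : v = [] := List.length_eq_zero_iff.mp h2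
          subst hv
          rw [List.append_nil]
          exact mul_nil_right hX hm hg i j k u hij hjk hik (by simp at h huv ⊢; omega)
        · exact xw_eq hX hm hg i j k u v hij hjk hik (by omega) (by omega) (by omega)

end Step

theorem good_all (hX : Base X) (m : ℕ) : Good X (m + 1) := by
  induction m with
  | zero => exact good_one hX
  | succ n ih => exact good_succ hX (by omega) ih

theorem xw_sq (hX : Base X) (i j : Fin 5) (u : List Y) (hij : i ≠ j) :
    xw X i j u * xw X i j u = 1 :=
  (good_all hX u.length).sq i j u hij (by omega)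

theorem xw_comm (hX : Base X) (i j k l : Fin 5) (u v : List Y)
    (hij : i ≠ j) (hkl : k ≠ l) (hjk : j ≠ k) (hil : i ≠ l) :
    Commute (xw X i j u) (xw X k l v) :=
  (good_all hX (u.length + v.length)).comm i j k l u v hij hkl hjk hil (by omega)

theorem xw_mul (hX : Base X) (i j k : Fin 5) (u v : List Y)
    (hij : i ≠ j) (hjk : j ≠ k) (hik : i ≠ k) :
    ⁅xw X i j u, xw X j k v⁆ = xw X i k (u ++ v) :=
  (good_all hX (u.length + v.length)).mul i j k u v hij hjk hik (by omega)

end Words

end Pool.Agent.Work.MP_4e9880_al
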