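import Pool.Agent.Work.MP_4e9880_al.GroupCore

set_option autoImplicit false
set_option linter.unusedSectionVars false

open scoped commutatorElement
open scoped IsMulCommutative

namespace Pool.Agent.Work.MP_4e9880_al

open MonoidAlgebra

/-- The free associative algebra over the field with two elements. -/
abbrev FA (Y : Type*) := MonoidAlgebra (ZMod 2) (FreeMonoid Y)

section

variable {H : Type*} [Group H] {Y : Type*} {X : Fin 5 → Fin 5 → Option Y → H}

theorem zmod_two_cases (r : ZMod 2) : r = 0 ∨ r = 1 := by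
  revert r; decide

theorem exists_xr (hX : Base X) (i j : Fin 5) (hij : i ≠ j) :
    ∃ φ : FA Y → H, (∀ f g, φ (f + g) = φ f * φ g) ∧
      (∀ w : FreeMonoid Y, φ (single w 1) = xw X i j (FreeMonoid.toList w)) := by
  classical
  let S : Set H := Set.range (fun w : List Y => xw X i j w)
  have hc : ∀ a ∈ S, ∀ b ∈ S, a * b = b * a := by
    rintro _ ⟨u, rfl⟩ _ ⟨v, rfl⟩
    exact xw_comm hX i j i j u v hij hij hij.symm hij
  let K := Submonoid.closure S
  have : IsMulCommutative K := Submonoid.isMulCommutative_closure H hc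
  let _ : CommMonoid K := inferInstance
  let el : FreeMonoid Y → K := fun w =>
    ⟨xw X i j (FreeMonoid.toList w), Submonoid.subset_closure ⟨_, rfl⟩⟩
  have hel : ∀ w, el w * el w = 1 := by
    intro w
    apply Subtype.ext
    exact xw_sq hX i j _ hij
  let g : FreeMonoid Y → (ZMod 2 →+ Additive K) := fun w =>
    { toFun := fun r => if r = 0 then 0 else Additive.ofMul (el w)
      map_zero' := by simp
      map_add' := by
        intro r s
        have h := hel w
        have h' : Additive.ofMul (el w) + Additive.ofMul (el w) = 0 := by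
          rw [← ofMul_mul, h]; rfl
        rcases zmod_two_cases r with rfl | rfl <;> rcases zmod_two_cases s with rfl | rfl
        · simp
        · simp
        · simp
        · have e : (1 : ZMod 2) + 1 = 0 := by decide
          rw [e]
          simp [h'] }
  let Φ : (FreeMonoid Y →₀ ZMod 2) →+ Additive K := Finsupp.liftAddHom g
  refine ⟨fun f => ((Additive.toMul (Φ f.coeff) : K) : H), ?_, ?_⟩
  · intro f g'
    simp [map_add]
  · intro w
    simp [Φ, g, el]

open Classical in
/-- Root elements attached to elements of the free algebra. -/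
noncomputable def xr (X : Fin 5 → Fin 5 → Option Y → H) (i j : Fin 5) : FA Y → H :=
  if h : Base X ∧ i ≠ j then (exists_xr h.1 i j h.2).choose else fun _ => 1

theorem xr_add (hX : Base X) {i j : Fin 5} (hij : i ≠ j) (f g : FA Y) :
    xr X i j (f + g) = xr X i j f * xr X i j g := by
  have h : Base X ∧ i ≠ j := ⟨hX, hij⟩
  unfold xr
  rw [dif_pos h]
  exact (exists_xr h.1 i j h.2).choose_spec.1 f g

theorem xr_single (hX : Base X) {i j : Fin 5} (hij : i ≠ j) (w : FreeMonoid Y) :
    xr X i j (single w 1) = xw X i j (FreeMonoid.toList w) := by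
  have h : Base X ∧ i ≠ j := ⟨hX, hij⟩
  unfold xr
  rw [dif_pos h]
  exact (exists_xr h.1 i j h.2).choose_spec.2 w

theorem xr_zero (hX : Base X) {i j : Fin 5} (hij : i ≠ j) : xr X i j (0 : FA Y) = 1 := by
  have := xr_add hX hij (0 : FA Y) 0
  rw [add_zero] at this
  exact left_eq_mul.mp this

/-- induction principle. -/
theorem FA_induction {p : FA Y → Prop} (h0 : p 0) (hadd : ∀ f g, p f → p g → p (f + g))
    (h1 : ∀ w : FreeMonoid Y, p (single w 1)) (f : FA Y) : p f := by
  induction f using MonoidAlgebra.induction_linear with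
  | zero => exact h0
  | add x y hx hy => exact hadd x y hx hy
  | single m r =>
    rcases zmod_two_cases r with rfl | rfl
    · rw [single_zero]; exact h0
    · exact h1 m

theorem xr_comm (hX : Base X) {i j k l : Fin 5} (hij : i ≠ j) (hkl : k ≠ l) (hjk : j ≠ k)
    (hil : i ≠ l) (f g : FA Y) : Commute (xr X i j f) (xr X k l g) := by
  induction f using FA_induction with
  | h0 => rw [xr_zero hX hij]; exact Commute.one_left _
  | hadd f f' hf hf' => rw [xr_add hX hij]; exact hf.mul_left hf'
  | h1 w =>
    induction g using FA_induction with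
    | h0 => rw [xr_zero hX hkl]; exact Commute.one_right _
    | hadd f f' hf hf' => rw [xr_add hX hkl]; exact hf.mul_right hf'
    | h1 v =>
      rw [xr_single hX hij, xr_single hX hkl]
      exact xw_comm hX i j k l _ _ hij hkl hjk hil

theorem comm_mul_left' {A B C : H} (h : Commute A ⁅B, C⁆) : ⁅A * B, C⁆ = ⁅B, C⁆ * ⁅A, C⁆ := by
  have h' : A * ⁅B, C⁆ = ⁅B, C⁆ * A := h
  calc ⁅A * B, C⁆ = A * ⁅B, C⁆ * (C * A⁻¹ * C⁻¹) := by
        simp only [commutatorElement_def]; group
    _ = ⁅B, C⁆ * ⁅A, C⁆ := by
        rw [h']; simp only [commutatorElement_def]; group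

theorem comm_mul_right' {A B C : H} (h : Commute B ⁅A, C⁆) : ⁅A, B * C⁆ = ⁅A, B⁆ * ⁅A, C⁆ := by
  have h' : B * ⁅A, C⁆ = ⁅A, C⁆ * B := h
  calc ⁅A, B * C⁆ = ⁅A, B⁆ * (B * ⁅A, C⁆ * B⁻¹) := by
        simp only [commutatorElement_def]; group
    _ = ⁅A, B⁆ * ⁅A, C⁆ := by rw [h']; group

theorem xr_mul (hX : Base X) {i j k : Fin 5} (hij : i ≠ j) (hjk : j ≠ k) (hik : i ≠ k)
    (f g : FA Y) : ⁅xr X i j f, xr X j k g⁆ = xr X i k (f * g) := by
  induction f using FA_induction with
  | h0 => rw [xr_zero hX hij, zero_mul, xr_zero hX hik, commutatorElement_one_left]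
  | hadd f f' hf hf' =>
    rw [xr_add hX hij, comm_mul_left', hf, hf', add_mul, add_comm, xr_add hX hik]
    rw [hf']
    exact xr_comm hX hij hik hij.symm hik _ _
  | h1 w =>
    induction g using FA_induction with
    | h0 => rw [xr_zero hX hjk, mul_zero, xr_zero hX hik, commutatorElement_one_right]
    | hadd g g' hg hg' =>
      rw [xr_add hX hjk, comm_mul_right', hg, hg', mul_add, xr_add hX hik]
      rw [hg']
      exact xr_comm hX hjk hik hik.symm hjk _ _
    | h1 v =>
      rw [xr_single hX hij, xr_single hX hjk, xw_mul hX i j k _ _ hij hjk hik,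
        single_mul_single, mul_one, xr_single hX hik, FreeMonoid.toList_mul]

/-- The ring congruence of equality of all root elements. -/
def rcon (hX : Base X) : RingCon (FA Y) where
  r f g := ∀ i j, i ≠ j → xr X i j f = xr X i j g
  iseqv := ⟨fun _ _ _ _ => rfl, fun h i j hij => (h i j hij).symm,
    fun h h' i j hij => (h i j hij).trans (h' i j hij)⟩
  add' := by
    intro w x y z h h' i j hij
    rw [xr_add hX hij, xr_add hX hij, h i j hij, h' i j hij]
  mul' := by
    intro w x y z h h' i k hik
    have ht := third_ne i k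
    rw [← xr_mul hX ht.1.symm ht.2 hik, ← xr_mul hX ht.1.symm ht.2 hik, h _ _ ht.1.symm,
      h' _ _ ht.2]

end

/-- Steinberg systems over a ring (five indices). -/
structure StSys (R H : Type*) [Ring R] [Group H] where
  x : Fin 5 → Fin 5 → R → H
  add : ∀ i j r s, i ≠ j → x i j (r + s) = x i j r * x i j s
  comm : ∀ i j k l r s, i ≠ j → k ≠ l → j ≠ k → i ≠ l → Commute (x i j r) (x k l s)
  mul : ∀ i j k r s, i ≠ j → j ≠ k → i ≠ k → ⁅x i j r, x j k s⁆ = x i k (r * s)

namespace StSys

variable {R H : Type*} [Ring R] [Group H] (S : StSys R H)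

theorem zero {i j : Fin 5} (hij : i ≠ j) : S.x i j 0 = 1 := by
  have := S.add i j 0 0 hij
  rw [add_zero] at this
  exact left_eq_mul.mp this

/-- The family attached to generators. -/
def fam {Y : Type*} (v : Y → R) : Fin 5 → Fin 5 → Option Y → H
  | i, j, none => S.x i j 1
  | i, j, some y => S.x i j (v y)

theorem base {Y : Type*} (v : Y → R) (h2 : ∀ r : R, r + r = 0) : Base (S.fam v) := by
  have hfam : ∀ i j u, ∃ r, S.fam v i j u = S.x i j r := by
    intro i j u; cases u <;> exact ⟨_, rfl⟩
  refine ⟨?_, ?_, ?_, ?_⟩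
  · intro i j u hij
    obtain ⟨r, hr⟩ := hfam i j u
    rw [hr, ← S.add i j r r hij, h2, S.zero hij]
  · intro i j k l u w hij hkl hjk hil
    obtain ⟨r, hr⟩ := hfam i j u
    obtain ⟨s, hs⟩ := hfam k l w
    rw [hr, hs]
    exact S.comm i j k l r s hij hkl hjk hil
  · intro i j k u hij hjk hik
    cases u with
    | none => simp only [fam]; rw [S.mul i j k _ _ hij hjk hik, mul_one]
    | some y => simp only [fam]; rw [S.mul i j k _ _ hij hjk hik, one_mul]
  · intro i j k u hij hjk hik
    cases u with
    | none => simp only [fam]; rw [S.mul i j k _ _ hij hjk hik, mul_one]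
    | some y => simp only [fam]; rw [S.mul i j k _ _ hij hjk hik, mul_one]

end StSys

end Pool.Agent.Work.MP_4e9880_al
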