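import Pool.Agent.Work.MP_4e9880_al.GroupExt

set_option autoImplicit false
set_option linter.unusedSectionVars false

open scoped commutatorElement

namespace Pool.Agent.Work.MP_4e9880_al

open MonoidAlgebra

abbrev Idx := {p : Fin 5 × Fin 5 // p.1 ≠ p.2}

abbrev Gam (Y : Type) := Idx × Option Y

section Pres

variable {Y : Type}

/-- spread a family on the generators. -/
def gX {H : Type*} [Group H] (φ : Gam Y → H) : Fin 5 → Fin 5 → Option Y → H :=
  fun i j u => if h : i ≠ j then φ (⟨(i, j), h⟩, u) else 1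

theorem map_gX {H H' : Type*} [Group H] [Group H'] (φ : Gam Y → H) (ψ : H →* H') (i j : Fin 5)
    (u : Option Y) : ψ (gX φ i j u) = gX (fun g => ψ (φ g)) i j u := by
  unfold gX
  by_cases h : i ≠ j
  · simp [h]
  · simp [h]

/-- generators of the free group, spread over all pairs of indices. -/
def gF (Y : Type) (i j : Fin 5) (u : Option Y) : FreeGroup (Gam Y) := gX FreeGroup.of i j u

/-- The base relators. -/
def baseRels (Y : Type) : Set (FreeGroup (Gam Y)) :=
  {r | ∃ (i j : Fin 5) (u : Option Y), i ≠ j ∧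
      r = gF Y i j u * gF Y i j u} ∪
  {r | ∃ (i j k l : Fin 5) (u v : Option Y), i ≠ j ∧ k ≠ l ∧ j ≠ k ∧ i ≠ l ∧
      r = ⁅gF Y i j u, gF Y k l v⁆} ∪
  {r | ∃ (i j k : Fin 5) (v : Option Y), i ≠ j ∧ j ≠ k ∧ i ≠ k ∧
      r = ⁅gF Y i j none, gF Y j k v⁆ * (gF Y i k v)⁻¹} ∪
  {r | ∃ (i j k : Fin 5) (v : Option Y), i ≠ j ∧ j ≠ k ∧ i ≠ k ∧
      r = ⁅gF Y i j v, gF Y j k none⁆ * (gF Y i k v)⁻¹}

theorem baseRels_finite [Finite Y] : (baseRels Y).Finite := by
  unfold baseRels
  refine Set.Finite.union (Set.Finite.union (Set.Finite.union ?_ ?_) ?_) ?_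
  · refine Set.Finite.subset (Set.finite_range
      (fun t : Fin 5 × Fin 5 × Option Y => gF Y t.1 t.2.1 t.2.2 *
        gF Y t.1 t.2.1 t.2.2)) ?_
    rintro _ ⟨i, j, u, -, rfl⟩
    exact ⟨(i, j, u), rfl⟩
  · refine Set.Finite.subset (Set.finite_range
      (fun t : Fin 5 × Fin 5 × Fin 5 × Fin 5 × Option Y × Option Y =>
        ⁅gF Y t.1 t.2.1 t.2.2.2.2.1,
          gF Y t.2.2.1 t.2.2.2.1 t.2.2.2.2.2⁆)) ?_
    rintro _ ⟨i, j, k, l, u, v, -, -, -, -, rfl⟩
    exact ⟨(i, j, k, l, u, v), rfl⟩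
  · refine Set.Finite.subset (Set.finite_range
      (fun t : Fin 5 × Fin 5 × Fin 5 × Option Y =>
        ⁅gF Y t.1 t.2.1 none, gF Y t.2.1 t.2.2.1 t.2.2.2⁆ *
          (gF Y t.1 t.2.2.1 t.2.2.2)⁻¹)) ?_
    rintro _ ⟨i, j, k, v, -, -, -, rfl⟩
    exact ⟨(i, j, k, v), rfl⟩
  · refine Set.Finite.subset (Set.finite_range
      (fun t : Fin 5 × Fin 5 × Fin 5 × Option Y =>
        ⁅gF Y t.1 t.2.1 t.2.2.2, gF Y t.2.1 t.2.2.1 none⁆ *
          (gF Y t.1 t.2.2.1 t.2.2.2)⁻¹)) ?_
    rintro _ ⟨i, j, k, v, -, -, -, rfl⟩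
    exact ⟨(i, j, k, v), rfl⟩

/-- The group with the base relations. -/
abbrev P0 (Y : Type) := PresentedGroup (baseRels Y)

/-- The universal base family. -/
def X0 (Y : Type) : Fin 5 → Fin 5 → Option Y → P0 Y := gX PresentedGroup.of

theorem X0_eq (i j : Fin 5) (u : Option Y) :
    X0 Y i j u = PresentedGroup.mk (baseRels Y) (gF Y i j u) := by
  rw [gF, map_gX]; rfl

theorem base_X0 : Base (X0 Y) := by
  refine ⟨?_, ?_, ?_, ?_⟩
  · intro i j u hij
    rw [X0_eq, ← map_mul]
    apply PresentedGroup.one_of_mem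
    exact Or.inl (Or.inl (Or.inl ⟨i, j, u, hij, rfl⟩))
  · intro i j k l u v hij hkl hjk hil
    rw [← commutatorElement_eq_one_iff_commute, X0_eq, X0_eq, ← map_commutatorElement]
    apply PresentedGroup.one_of_mem
    exact Or.inl (Or.inl (Or.inr ⟨i, j, k, l, u, v, hij, hkl, hjk, hil, rfl⟩))
  · intro i j k v hij hjk hik
    rw [X0_eq, X0_eq, X0_eq, ← map_commutatorElement]
    apply PresentedGroup.mk_eq_mk_of_mul_inv_mem
    exact Or.inl (Or.inr ⟨i, j, k, v, hij, hjk, hik, rfl⟩)
  · intro i j k v hij hjk hik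
    rw [X0_eq, X0_eq, X0_eq, ← map_commutatorElement]
    apply PresentedGroup.mk_eq_mk_of_mul_inv_mem
    exact Or.inr ⟨i, j, k, v, hij, hjk, hik, rfl⟩

/-- A base family in `H` gives a homomorphism. -/
theorem exists_hom0 {H : Type*} [Group H] {X : Fin 5 → Fin 5 → Option Y → H} (hX : Base X) :
    ∃ φ : P0 Y →* H, ∀ i j u, i ≠ j → φ (X0 Y i j u) = X i j u := by
  let f : Gam Y → H := fun g => X g.1.1.1 g.1.1.2 g.2
  have hf : ∀ i j u, i ≠ j → FreeGroup.lift f (gF Y i j u) = X i j u := by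
    intro i j u hij
    rw [gF, map_gX]
    simp [gX, hij, f]
  have hr : ∀ r ∈ baseRels Y, FreeGroup.lift f r = 1 := by
    rintro r (((⟨i, j, u, hij, rfl⟩ | ⟨i, j, k, l, u, v, hij, hkl, hjk, hil, rfl⟩) |
      ⟨i, j, k, v, hij, hjk, hik, rfl⟩) | ⟨i, j, k, v, hij, hjk, hik, rfl⟩)
    · rw [map_mul, hf i j u hij, hX.sq i j u hij]
    · rw [map_commutatorElement, hf i j u hij, hf k l v hkl,
        commutatorElement_eq_one_iff_commute]
      exact hX.comm i j k l u v hij hkl hjk hil
    · rw [map_mul, map_commutatorElement, map_inv, hf i j _ hij, hf j k v hjk, hf i k v hik,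
        hX.one_mul i j k v hij hjk hik, mul_inv_cancel]
    · rw [map_mul, map_commutatorElement, map_inv, hf i j _ hij, hf j k _ hjk, hf i k v hik,
        hX.mul_one i j k v hij hjk hik, mul_inv_cancel]
  refine ⟨PresentedGroup.toGroup hr, ?_⟩
  intro i j u hij
  unfold X0
  rw [map_gX]
  simp [gX, hij, f]

/-- The word attached to a list of generators. -/
def wd {R : Type*} [Ring R] (v : Y → R) (w : List Y) : R := (w.map v).prod

/-- The evaluation homomorphism. -/
noncomputable def ev {R : Type*} [Ring R] [Algebra (ZMod 2) R] (v : Y → R) : FA Y →ₐ[ZMod 2] R :=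
  MonoidAlgebra.lift (ZMod 2) R (FreeMonoid Y) (FreeMonoid.lift v)

theorem ev_single {R : Type*} [Ring R] [Algebra (ZMod 2) R] (v : Y → R) (w : FreeMonoid Y) :
    ev v (single w 1) = wd v (FreeMonoid.toList w) := by
  unfold ev wd
  rw [MonoidAlgebra.lift_single, one_smul, FreeMonoid.lift_apply]

/-- image of word elements. -/
theorem hom_xw {H H' : Type*} [Group H] [Group H'] {X : Fin 5 → Fin 5 → Option Y → H}
    {R : Type*} [Ring R] (S : StSys R H') (v : Y → R)
    (φ : H →* H') (hφ : ∀ i j u, i ≠ j → φ (X i j u) = S.fam v i j u) (w : List Y) :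
    ∀ i j, i ≠ j → φ (xw X i j w) = S.x i j (wd v w) := by
  induction w with
  | nil =>
    intro i j hij
    rw [xw_nil, hφ i j none hij]
    simp [StSys.fam, wd]
  | cons y w ih =>
    intro i k hik
    have ht := third_ne i k
    rw [xw, map_commutatorElement, hφ _ _ _ ht.1.symm, ih _ _ ht.2]
    simp only [StSys.fam]
    rw [S.mul _ _ _ _ _ ht.1.symm ht.2 hik]
    simp [wd]

theorem hom_xr {H H' : Type*} [Group H] [Group H'] {X : Fin 5 → Fin 5 → Option Y → H}
    (hX : Base X) {R : Type*} [Ring R] [Algebra (ZMod 2) R] (S : StSys R H') (v : Y → R)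
    (φ : H →* H') (hφ : ∀ i j u, i ≠ j → φ (X i j u) = S.fam v i j u) (f : FA Y) :
    ∀ i j, i ≠ j → φ (xr X i j f) = S.x i j (ev v f) := by
  intro i j hij
  induction f using FA_induction with
  | h0 => rw [xr_zero hX hij, map_one, map_zero, S.zero hij]
  | hadd f g hf hg => rw [xr_add hX hij, map_mul, hf, hg, map_add, S.add i j _ _ hij]
  | h1 w => rw [xr_single hX hij, hom_xw S v φ hφ _ i j hij, ev_single]

variable (rel : Set (FA Y × FA Y))

/-- The finitely presented ring. -/
abbrev RQ := (ringConGen (fun f g => (f, g) ∈ rel)).Quotient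

/-- The extra relators. -/
def extra : Set (P0 Y) :=
  {t | ∃ p ∈ rel, ∃ i j : Fin 5, i ≠ j ∧ t = xr (X0 Y) i j p.1 * (xr (X0 Y) i j p.2)⁻¹}

theorem extra_finite (h : rel.Finite) : (extra rel).Finite := by
  have : (extra rel) ⊆ (fun t : (FA Y × FA Y) × (Fin 5 × Fin 5) =>
      xr (X0 Y) t.2.1 t.2.2 t.1.1 * (xr (X0 Y) t.2.1 t.2.2 t.1.2)⁻¹) '' (rel ×ˢ Set.univ) := by
    rintro _ ⟨p, hp, i, j, -, rfl⟩
    exact ⟨(p, (i, j)), ⟨hp, trivial⟩, rfl⟩
  exact ((h.prod Set.finite_univ).image _).subset this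

/-- The group. -/
abbrev GG := P0 Y ⧸ Subgroup.normalClosure (extra rel)

/-- The base family in the group. -/
def X1 : Fin 5 → Fin 5 → Option Y → GG rel :=
  fun i j u => QuotientGroup.mk' (Subgroup.normalClosure (extra rel)) (X0 Y i j u)

theorem base_X1 : Base (X1 rel) := by
  have hX := base_X0 (Y := Y)
  refine ⟨?_, ?_, ?_, ?_⟩
  · intro i j u hij
    unfold X1
    rw [← map_mul, hX.sq i j u hij, map_one]
  · intro i j k l u v hij hkl hjk hil
    exact (hX.comm i j k l u v hij hkl hjk hil).map _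
  · intro i j k v hij hjk hik
    unfold X1
    rw [← map_commutatorElement, hX.one_mul i j k v hij hjk hik]
  · intro i j k v hij hjk hik
    unfold X1
    rw [← map_commutatorElement, hX.mul_one i j k v hij hjk hik]

theorem mk_xw (w : List Y) : ∀ i j, i ≠ j →
    QuotientGroup.mk' (Subgroup.normalClosure (extra rel)) (xw (X0 Y) i j w) =
      xw (X1 rel) i j w := by
  induction w with
  | nil => intro i j hij; rfl
  | cons y w ih =>
    intro i j hij
    have ht := third_ne i j
    rw [xw, xw, map_commutatorElement, ih _ _ ht.2]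
    rfl

theorem mk_xr (f : FA Y) : ∀ i j, i ≠ j →
    QuotientGroup.mk' (Subgroup.normalClosure (extra rel)) (xr (X0 Y) i j f) =
      xr (X1 rel) i j f := by
  intro i j hij
  have hX := base_X0 (Y := Y)
  have hX1 := base_X1 rel
  induction f using FA_induction with
  | h0 => rw [xr_zero hX hij, xr_zero hX1 hij, map_one]
  | hadd f g hf hg => rw [xr_add hX hij, xr_add hX1 hij, map_mul, hf, hg]
  | h1 w => rw [xr_single hX hij, xr_single hX1 hij, mk_xw rel _ i j hij]

theorem rel_le : ringConGen (fun f g => (f, g) ∈ rel) ≤ rcon (base_X1 rel) := by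
  apply RingCon.ringConGen_le.mpr
  intro f g hfg i j hij
  rw [← mk_xr rel f i j hij, ← mk_xr rel g i j hij]
  rw [← mul_inv_eq_one, ← map_inv, ← map_mul]
  rw [QuotientGroup.mk'_apply, QuotientGroup.eq_one_iff]
  apply Subgroup.subset_normalClosure
  exact ⟨(f, g), hfg, i, j, hij, rfl⟩

/-- The canonical Steinberg system. -/
noncomputable def SG : StSys (RQ rel) (GG rel) := by
  have key : ∀ (f g : FA Y), ((f : RQ rel) = (g : RQ rel)) → ∀ i j, i ≠ j →
      xr (X1 rel) i j f = xr (X1 rel) i j g := by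
    intro f g hfg i j hij
    exact rel_le rel ((RingCon.eq _).mp hfg) i j hij
  have hX1 := base_X1 rel
  have hout : ∀ r : RQ rel, ((Quotient.out r : FA Y) : RQ rel) = r := fun r => Quotient.out_eq r
  refine
  { x := fun i j r => xr (X1 rel) i j (Quotient.out r)
    add := ?_
    comm := ?_
    mul := ?_ }
  · intro i j r s hij
    rw [← xr_add hX1 hij]
    apply key _ _ _ i j hij
    rw [hout, RingCon.coe_add, hout, hout]
  · intro i j k l r s hij hkl hjk hil
    exact xr_comm hX1 hij hkl hjk hil _ _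
  · intro i j k r s hij hjk hik
    rw [xr_mul hX1 hij hjk hik]
    apply key _ _ _ i k hik
    rw [hout, RingCon.coe_mul, hout, hout]

theorem SG_mk (f : FA Y) (i j : Fin 5) (hij : i ≠ j) :
    (SG rel).x i j (f : RQ rel) = xr (X1 rel) i j f := by
  have hout : ((Quotient.out (f : RQ rel) : FA Y) : RQ rel) = (f : RQ rel) := Quotient.out_eq _
  exact rel_le rel ((RingCon.eq _).mp hout) i j hij

/-- the generators of the ring. -/
noncomputable def vR (y : Y) : RQ rel := ((single (FreeMonoid.of y) 1 : FA Y) : RQ rel)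

theorem ev_vR (f : FA Y) : ev (vR rel) f = (f : RQ rel) := by
  have hw : ∀ w : List Y, wd (vR rel) w =
      ((single (FreeMonoid.ofList w) 1 : FA Y) : RQ rel) := by
    intro w
    induction w with
    | nil => rfl
    | cons y w ih =>
      have e : (single (FreeMonoid.ofList (y :: w)) 1 : FA Y) =
          single (FreeMonoid.of y) 1 * single (FreeMonoid.ofList w) 1 := by
        rw [single_mul_single, mul_one]; rfl
      rw [e, RingCon.coe_mul, ← ih]
      simp [wd, vR]
  induction f using FA_induction with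
  | h0 => rw [map_zero]; rfl
  | hadd f g hf hg => rw [map_add, hf, hg, RingCon.coe_add]
  | h1 w => rw [ev_single, hw]; rfl

theorem X1_eq (i j : Fin 5) (u : Option Y) (hij : i ≠ j) :
    X1 rel i j u = (SG rel).fam (vR rel) i j u := by
  cases u with
  | none =>
    simp only [StSys.fam]
    have h : (1 : RQ rel) = (((single (1 : FreeMonoid Y) (1 : ZMod 2)) : FA Y) : RQ rel) := rfl
    rw [h, SG_mk rel _ i j hij, xr_single (base_X1 rel) hij]
    rfl
  | some y =>
    simp only [StSys.fam]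
    rw [vR, SG_mk rel _ i j hij, xr_single (base_X1 rel) hij]
    have : FreeMonoid.toList (FreeMonoid.of y) = [y] := rfl
    rw [this, xw_single (base_X1 rel) hij]

/-- universal property. -/
theorem exists_hom {H : Type*} [Group H] (S : StSys (RQ rel) H) :
    ∃ φ : GG rel →* H, ∀ i j r, i ≠ j → φ ((SG rel).x i j r) = S.x i j r := by
  have h2 : ∀ r : RQ rel, r + r = 0 := by
    intro r
    have : (2 : ZMod 2) • r = 0 := by
      have : (2 : ZMod 2) = 0 := by decide
      rw [this, zero_smul]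
    rwa [two_smul] at this
  have hB := S.base (vR rel) h2
  obtain ⟨φ, hφ⟩ := exists_hom0 hB
  have hxr := hom_xr base_X0 S (vR rel) φ hφ
  have hker : Subgroup.normalClosure (extra rel) ≤ φ.ker := by
    apply Subgroup.normalClosure_le_normal
    rintro _ ⟨p, hp, i, j, hij, rfl⟩
    change φ _ = 1
    rw [map_mul, map_inv, hxr _ i j hij, hxr _ i j hij, ev_vR, ev_vR]
    have : ((p.1 : FA Y) : RQ rel) = ((p.2 : FA Y) : RQ rel) := by
      apply (RingCon.eq _).mpr
      exact RingConGen.Rel.of _ _ hp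
    rw [this, mul_inv_cancel]
  refine ⟨QuotientGroup.lift _ φ hker, ?_⟩
  intro i j r hij
  obtain ⟨f, rfl⟩ := Quotient.exists_rep r
  change (QuotientGroup.lift _ φ hker) ((SG rel).x i j (f : RQ rel)) = S.x i j (f : RQ rel)
  rw [SG_mk rel f i j hij, ← mk_xr rel f i j hij, QuotientGroup.mk'_apply, QuotientGroup.lift_mk,
    hxr f i j hij, ev_vR]

/-- generation. -/
theorem closure_SG : Subgroup.closure
    {g : GG rel | ∃ i j r, i ≠ j ∧ g = (SG rel).x i j r} = ⊤ := by
  rw [eq_top_iff]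
  rintro g -
  obtain ⟨p, rfl⟩ := QuotientGroup.mk_surjective g
  induction p using PresentedGroup.induction_on with
  | _ z =>
    induction z using FreeGroup.induction_on with
    | C1 => rw [map_one]; exact Subgroup.one_mem _
    | of x =>
      apply Subgroup.subset_closure
      obtain ⟨⟨⟨i, j⟩, hij⟩, u⟩ := x
      have h1 := X1_eq rel i j u hij
      have h2 : ((PresentedGroup.mk (baseRels Y) (FreeGroup.of (⟨(i, j), hij⟩, u)) : P0 Y) :
          GG rel) = X1 rel i j u := by
        unfold X1 X0 gX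
        rw [dif_pos hij]
        rfl
      rw [h2, h1]
      cases u with
      | none => exact ⟨i, j, 1, hij, rfl⟩
      | some y => exact ⟨i, j, vR rel y, hij, rfl⟩
    | inv_of x hx =>
      rw [map_inv]
      exact Subgroup.inv_mem _ hx
    | mul x y hx hy =>
      rw [map_mul]
      exact Subgroup.mul_mem _ hx hy

theorem hom_ext {H : Type*} [Group H] {φ ψ : GG rel →* H}
    (h : ∀ i j r, i ≠ j → φ ((SG rel).x i j r) = ψ ((SG rel).x i j r)) : φ = ψ := by
  apply MonoidHom.eq_of_eqOn_dense (closure_SG rel)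
  rintro _ ⟨i, j, r, hij, rfl⟩
  exact h i j r hij

end Pres

end Pool.Agent.Work.MP_4e9880_al
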