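import Pool.Agent.Work.MP_4e9880_al.RingSys
import Pool.Agent.Work.MP_4e9880_al.GroupMain

set_option autoImplicit false
set_option linter.unusedSectionVars false

namespace Pool.Agent.Work.MP_4e9880_al

open MonoidAlgebra

/-- The ten generators. -/
inductive Gen : Type
  | a | a' | b | b' | s | s' | f | t | t' | E
  deriving DecidableEq, Fintype

/-- the generators of a system. -/
def Sys.gen {A : Type*} [Ring A] (S : Sys A) : Gen → A
  | .a => S.a
  | .a' => S.a'
  | .b => S.b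
  | .b' => S.b'
  | .s => S.s
  | .s' => S.s'
  | .f => S.f
  | .t => S.t
  | .t' => S.t'
  | .E => S.E

/-- The defining relations, as pairs. -/
def relT {A : Type*} [Ring A] (a a' b b' s s' f t t' E : A) : List (A × A) :=
  [(a' * a, 1),
   (b' * b, 1),
   (a' * b, 0),
   (b' * a, 0),
   (a * a' + b * b', 1),
   (s * s', 1),
   (s' * s, 1),
   (f * f, 1),
   (t * t', 1),
   (t' * t, 1),
   (s * a * s' * a, a * a),
   (s * a * s' * b, b * (s * a * s')),
   (s * a' * s' * a, a * a'),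
   (s * a' * s' * b, b * (s * a' * s')),
   (s * b * s' * a, a * b),
   (s * b * s' * b, b * (s * b * s')),
   (s * b' * s' * a, a * b'),
   (s * b' * s' * b, b * (s * b' * s')),
   (s * f * s' * a, a * f),
   (s * f * s' * b, b * (s * f * s')),
   (s * t * s' * a, a * t),
   (s * t * s' * b, b * (s * t * s')),
   (s * E * s' * a, a * E),
   (s * E * s' * b, b * (s * E * s')),
   (s * a * s', f * a),
   (s * a' * s', a' * f),
   (s * b * s', f * b * f),
   (s * b' * s', f * b' * f),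
   (s * E * s', f * E * f),
   (t * a, a),
   (t * b, b * (s * (a * a * a' + a * b * a' * b' + b * b' * b') * s') * t),
   (s * (a' * b') * s' * t' * (s * (b * a) * s') * t, a * a'),
   (E * E, E),
   (E * (s * a * s'), s * a * s' * E),
   (E * (s * a' * s'), s * a' * s' * E),
   (E * (s * b * s'), s * b * s' * E),
   (E * (s * b' * s'), s * b' * s' * E),
   (E * (s * f * s'), s * f * s' * E),
   (E * (s * t * s'), s * t * s' * E),
   (E * (s * E * s'), s * E * s' * E),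
   (E * t, t * E)]

/-- relations for a family indexed by the generators. -/
def relL {A : Type*} [Ring A] (v : Gen → A) : List (A × A) :=
  relT (v .a) (v .a') (v .b) (v .b') (v .s) (v .s') (v .f) (v .t) (v .t') (v .E)

theorem relL_map {A B : Type*} [Ring A] [Ring B] (φ : A →+* B) (v : Gen → A) :
    (relL v).map (fun p => (φ p.1, φ p.2)) = relL (fun y => φ (v y)) := by
  simp only [relL, relT, List.map_cons, List.map_nil, map_mul, map_add, map_one, map_zero]

/-- A family satisfying the relations is a system. -/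
def sysOf {A : Type*} [Ring A] (v : Gen → A) (h : ∀ p ∈ relL v, p.1 = p.2) : Sys A := by
  have h' := h
  simp only [relL, relT, List.forall_mem_cons] at h'
  exact
  { a := v .a
    a' := v .a'
    b := v .b
    b' := v .b'
    s := v .s
    s' := v .s'
    f := v .f
    t := v .t
    t' := v .t'
    E := v .E
    haa := h'.1
    hbb := h'.2.1
    hab := h'.2.2.1
    hba := h'.2.2.2.1
    hsum := h'.2.2.2.2.1
    hss := h'.2.2.2.2.2.1
    hss' := h'.2.2.2.2.2.2.1
    hff := h'.2.2.2.2.2.2.2.1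
    htt := h'.2.2.2.2.2.2.2.2.1
    htt' := h'.2.2.2.2.2.2.2.2.2.1
    g1a := h'.2.2.2.2.2.2.2.2.2.2.1
    g1b := h'.2.2.2.2.2.2.2.2.2.2.2.1
    g2a := h'.2.2.2.2.2.2.2.2.2.2.2.2.1
    g2b := h'.2.2.2.2.2.2.2.2.2.2.2.2.2.1
    g3a := h'.2.2.2.2.2.2.2.2.2.2.2.2.2.2.1
    g3b := h'.2.2.2.2.2.2.2.2.2.2.2.2.2.2.2.1
    g4a := h'.2.2.2.2.2.2.2.2.2.2.2.2.2.2.2.2.1
    g4b := h'.2.2.2.2.2.2.2.2.2.2.2.2.2.2.2.2.2.1
    g5a := h'.2.2.2.2.2.2.2.2.2.2.2.2.2.2.2.2.2.2.1
    g5b := h'.2.2.2.2.2.2.2.2.2.2.2.2.2.2.2.2.2.2.2.1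
    g6a := h'.2.2.2.2.2.2.2.2.2.2.2.2.2.2.2.2.2.2.2.2.1
    g6b := h'.2.2.2.2.2.2.2.2.2.2.2.2.2.2.2.2.2.2.2.2.2.1
    g7a := h'.2.2.2.2.2.2.2.2.2.2.2.2.2.2.2.2.2.2.2.2.2.2.1
    g7b := h'.2.2.2.2.2.2.2.2.2.2.2.2.2.2.2.2.2.2.2.2.2.2.2.1
    d1 := h'.2.2.2.2.2.2.2.2.2.2.2.2.2.2.2.2.2.2.2.2.2.2.2.2.1
    d2 := h'.2.2.2.2.2.2.2.2.2.2.2.2.2.2.2.2.2.2.2.2.2.2.2.2.2.1
    d3 := h'.2.2.2.2.2.2.2.2.2.2.2.2.2.2.2.2.2.2.2.2.2.2.2.2.2.2.1
    d4 := h'.2.2.2.2.2.2.2.2.2.2.2.2.2.2.2.2.2.2.2.2.2.2.2.2.2.2.2.1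
    d5 := h'.2.2.2.2.2.2.2.2.2.2.2.2.2.2.2.2.2.2.2.2.2.2.2.2.2.2.2.2.1
    t1 := h'.2.2.2.2.2.2.2.2.2.2.2.2.2.2.2.2.2.2.2.2.2.2.2.2.2.2.2.2.2.1
    t2 := h'.2.2.2.2.2.2.2.2.2.2.2.2.2.2.2.2.2.2.2.2.2.2.2.2.2.2.2.2.2.2.1
    t3 := h'.2.2.2.2.2.2.2.2.2.2.2.2.2.2.2.2.2.2.2.2.2.2.2.2.2.2.2.2.2.2.2.1
    e0 := h'.2.2.2.2.2.2.2.2.2.2.2.2.2.2.2.2.2.2.2.2.2.2.2.2.2.2.2.2.2.2.2.2.1
    e1 := h'.2.2.2.2.2.2.2.2.2.2.2.2.2.2.2.2.2.2.2.2.2.2.2.2.2.2.2.2.2.2.2.2.2.1
    e2 := h'.2.2.2.2.2.2.2.2.2.2.2.2.2.2.2.2.2.2.2.2.2.2.2.2.2.2.2.2.2.2.2.2.2.2.1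
    e3 := h'.2.2.2.2.2.2.2.2.2.2.2.2.2.2.2.2.2.2.2.2.2.2.2.2.2.2.2.2.2.2.2.2.2.2.2.1
    e4 := h'.2.2.2.2.2.2.2.2.2.2.2.2.2.2.2.2.2.2.2.2.2.2.2.2.2.2.2.2.2.2.2.2.2.2.2.2.1
    e5 := h'.2.2.2.2.2.2.2.2.2.2.2.2.2.2.2.2.2.2.2.2.2.2.2.2.2.2.2.2.2.2.2.2.2.2.2.2.2.1
    e6 := h'.2.2.2.2.2.2.2.2.2.2.2.2.2.2.2.2.2.2.2.2.2.2.2.2.2.2.2.2.2.2.2.2.2.2.2.2.2.2.1
    e7 := h'.2.2.2.2.2.2.2.2.2.2.2.2.2.2.2.2.2.2.2.2.2.2.2.2.2.2.2.2.2.2.2.2.2.2.2.2.2.2.2.1
    e8 := h'.2.2.2.2.2.2.2.2.2.2.2.2.2.2.2.2.2.2.2.2.2.2.2.2.2.2.2.2.2.2.2.2.2.2.2.2.2.2.2.2.1 }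

theorem sysOf_gen {A : Type*} [Ring A] (v : Gen → A) (h : ∀ p ∈ relL v, p.1 = p.2) (y : Gen) :
    (sysOf v h).gen y = v y := by
  cases y <;> rfl

theorem Sys.rels {A : Type*} [Ring A] (S : Sys A) : ∀ p ∈ relL S.gen, p.1 = p.2 := by
  simp only [relL, relT, List.forall_mem_cons]
  exact ⟨S.haa, S.hbb, S.hab, S.hba, S.hsum, S.hss, S.hss', S.hff, S.htt, S.htt', S.g1a, S.g1b,
    S.g2a, S.g2b, S.g3a, S.g3b, S.g4a, S.g4b, S.g5a, S.g5b, S.g6a, S.g6b, S.g7a, S.g7b,
    S.d1, S.d2, S.d3, S.d4, S.d5, S.t1, S.t2, S.t3, S.e0, S.e1, S.e2, S.e3, S.e4, S.e5, S.e6,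
    S.e7, S.e8, by simp⟩

/-- The free generators. -/
noncomputable def gfree (y : Gen) : FA Gen := single (FreeMonoid.of y) 1

/-- The relation set. -/
def rel : Set (FA Gen × FA Gen) := {p | p ∈ relL gfree}

theorem rel_finite : rel.Finite := List.finite_toSet _

/-- The ring. -/
abbrev RR := RQ rel

theorem gfree_coe (y : Gen) : ((gfree y : FA Gen) : RR) = vR rel y := rfl

theorem vR_rels : ∀ p ∈ relL (vR rel), p.1 = p.2 := by
  have h := relL_map ((ringConGen (fun f g => (f, g) ∈ rel)).mk') gfree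
  have h' : (fun y => (ringConGen (fun f g => (f, g) ∈ rel)).mk' (gfree y)) = vR rel := rfl
  rw [h'] at h
  rw [← h]
  intro p hp
  rw [List.mem_map] at hp
  obtain ⟨q, hq, rfl⟩ := hp
  apply (RingCon.eq _).mpr
  exact RingConGen.Rel.of _ _ hq

/-- The universal system. -/
noncomputable def SR : Sys RR := sysOf (vR rel) vR_rels

theorem SR_gen (y : Gen) : SR.gen y = vR rel y := sysOf_gen _ _ y

section lift

variable {B : Type*} [Ring B] [Algebra (ZMod 2) B]

theorem exists_lift (T : Sys B) : ∃ φ : RR →ₐ[ZMod 2] B, ∀ y, φ (SR.gen y) = T.gen y := by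
  have hle : ringConGen (fun f g => (f, g) ∈ rel) ≤ RingCon.ker (ev T.gen).toRingHom := by
    apply RingCon.ringConGen_le.mpr
    intro f g hfg
    have h := relL_map (ev T.gen).toRingHom gfree
    have hv : (fun y => (ev T.gen).toRingHom (gfree y)) = T.gen := by
      funext y
      change ev T.gen (single (FreeMonoid.of y) 1) = _
      rw [ev_single]
      simp [wd]
    rw [hv] at h
    have hm : ((ev T.gen).toRingHom f, (ev T.gen).toRingHom g) ∈ relL T.gen := by
      rw [← h, List.mem_map]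
      exact ⟨(f, g), hfg, rfl⟩
    exact T.rels _ hm
  refine ⟨RingCon.liftₐ _ (ev T.gen) hle, ?_⟩
  intro y
  rw [SR_gen]
  change (RingCon.liftₐ _ (ev T.gen) hle) ((gfree y : FA Gen) : RR) = _
  rw [RingCon.liftₐ_mk]
  change ev T.gen (single (FreeMonoid.of y) 1) = _
  rw [ev_single]
  simp [wd]

theorem hom_eq {φ ψ : RR →ₐ[ZMod 2] B} (h : ∀ y, φ (SR.gen y) = ψ (SR.gen y)) : φ = ψ := by
  apply AlgHom.ext
  intro r
  obtain ⟨f, rfl⟩ := Quotient.exists_rep r
  change φ (f : RR) = ψ (f : RR)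
  rw [← ev_vR]
  have hw : ∀ w : List Gen, φ (wd (vR rel) w) = ψ (wd (vR rel) w) := by
    intro w
    induction w with
    | nil => simp [wd]
    | cons y w ih =>
      have e : wd (vR rel) (y :: w) = vR rel y * wd (vR rel) w := by simp [wd]
      rw [e, map_mul, map_mul, ih, ← SR_gen, h]
  induction f using FA_induction with
  | h0 => simp
  | hadd f g hf hg => rw [map_add, map_add, map_add, hf, hg]
  | h1 w => rw [ev_single, hw]

end lift

/-- combination along a central idempotent. -/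
def combine {B : Type*} [Ring B] [Algebra (ZMod 2) B] {C : Type*} [Ring C] [Algebra (ZMod 2) C]
    (e : B) (he : e * e = e) (hc : ∀ r, e * r = r * e) (φ ψ : C →ₐ[ZMod 2] B) :
    C →ₐ[ZMod 2] B where
  toFun r := e * φ r + (1 - e) * ψ r
  map_one' := by simp
  map_zero' := by simp
  map_add' := by intro r s; rw [map_add, map_add]; noncomm_ring
  map_mul' := by
    intro r s
    rw [map_mul, map_mul]
    have h1 : (e * φ r) * (e * φ s) = e * (φ r * φ s) := by
      calc (e * φ r) * (e * φ s) = (e * φ r) * e * φ s := by noncomm_ring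
        _ = e * (e * φ r) * φ s := by rw [hc (e * φ r)]
        _ = (e * e) * (φ r * φ s) := by noncomm_ring
        _ = e * (φ r * φ s) := by rw [he]
    have h2 : (e * φ r) * ((1 - e) * ψ s) = 0 := by
      calc (e * φ r) * ((1 - e) * ψ s) = (e * φ r) * ψ s - ((e * φ r) * e) * ψ s := by noncomm_ring
        _ = (e * φ r) * ψ s - (e * (e * φ r)) * ψ s := by rw [hc (e * φ r)]
        _ = (e - e * e) * φ r * ψ s := by noncomm_ring
        _ = 0 := by rw [he]; noncomm_ring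
    have h3 : ((1 - e) * ψ r) * (e * φ s) = 0 := by
      calc ((1 - e) * ψ r) * (e * φ s) = (1 - e) * (ψ r * e) * φ s := by noncomm_ring
        _ = (1 - e) * (e * ψ r) * φ s := by rw [hc (ψ r)]
        _ = (e - e * e) * ψ r * φ s := by noncomm_ring
        _ = 0 := by rw [he]; noncomm_ring
    have h4 : ((1 - e) * ψ r) * ((1 - e) * ψ s) = (1 - e) * (ψ r * ψ s) := by
      calc ((1 - e) * ψ r) * ((1 - e) * ψ s)
          = (1 - e) * (ψ r * ψ s) - (1 - e) * (ψ r * e) * ψ s := by noncomm_ring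
        _ = (1 - e) * (ψ r * ψ s) - (1 - e) * (e * ψ r) * ψ s := by rw [hc (ψ r)]
        _ = (1 - e) * (ψ r * ψ s) - (e - e * e) * ψ r * ψ s := by noncomm_ring
        _ = (1 - e) * (ψ r * ψ s) := by rw [he]; noncomm_ring
    calc e * (φ r * φ s) + (1 - e) * (ψ r * ψ s)
        = (e * φ r) * (e * φ s) + (e * φ r) * ((1 - e) * ψ s)
          + ((1 - e) * ψ r) * (e * φ s) + ((1 - e) * ψ r) * ((1 - e) * ψ s) := by
          rw [h1, h2, h3, h4]; noncomm_ring
      _ = _ := by noncomm_ring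
  commutes' := by
    intro r
    rw [AlgHom.commutes, AlgHom.commutes]
    noncomm_ring

/-- The idempotent is central in the universal ring. -/
theorem e_central (r : RR) : SR.e * r = r * SR.e := by
  obtain ⟨f, rfl⟩ := Quotient.exists_rep r
  change SR.e * (f : RR) = (f : RR) * SR.e
  rw [← ev_vR]
  have hg : ∀ y, SR.e * vR rel y = vR rel y * SR.e := by
    intro y
    rw [← SR_gen]
    cases y with
    | a => exact SR.e_comm SR.good_a SR.ke_a
    | a' => exact SR.e_comm SR.good_a' SR.ke_a'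
    | b => exact SR.e_comm SR.good_b SR.ke_b
    | b' => exact SR.e_comm SR.good_b' SR.ke_b'
    | s => exact SR.e_s
    | s' => exact SR.e_s'
    | f => exact SR.e_comm SR.good_f SR.ke_f
    | t => exact SR.e_t
    | t' => exact SR.e_t'
    | E => exact SR.e_comm SR.good_E SR.ke_E
  have hw : ∀ w : List Gen, SR.e * (wd (vR rel) w) = (wd (vR rel) w) * SR.e := by
    intro w
    induction w with
    | nil => simp [wd]
    | cons y w ih =>
      have e : wd (vR rel) (y :: w) = vR rel y * wd (vR rel) w := by simp [wd]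
      rw [e, ← mul_assoc, hg, mul_assoc, ih, mul_assoc]
  induction f using FA_induction with
  | h0 => simp
  | hadd f g hf hg => rw [map_add, mul_add, add_mul, hf, hg]
  | h1 w => rw [ev_single, hw]

theorem ring_square : Nonempty (RR ≃+* RR × RR) := by
  obtain ⟨T, hT⟩ := exists_lift SR.tau
  obtain ⟨P0h, hP0⟩ := exists_lift SR.p0
  obtain ⟨P1h, hP1⟩ := exists_lift SR.p1
  have hTE : T SR.E = SR.b' * SR.E * SR.b := hT .E
  have hTa : T SR.a = SR.a := hT .a
  have hTa' : T SR.a' = SR.a' := hT .a'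
  have hTb : T SR.b = SR.b := hT .b
  have hTb' : T SR.b' = SR.b' := hT .b'
  have h0E : P0h SR.E = SR.b * SR.E * SR.b' := hP0 .E
  have h0a : P0h SR.a = SR.a := hP0 .a
  have h0a' : P0h SR.a' = SR.a' := hP0 .a'
  have h0b : P0h SR.b = SR.b := hP0 .b
  have h0b' : P0h SR.b' = SR.b' := hP0 .b'
  have h1E : P1h SR.E = SR.a * SR.a' + SR.b * SR.E * SR.b' := hP1 .E
  have h1a : P1h SR.a = SR.a := hP1 .a
  have h1a' : P1h SR.a' = SR.a' := hP1 .a'
  have h1b : P1h SR.b = SR.b := hP1 .b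
  have h1b' : P1h SR.b' = SR.b' := hP1 .b'
  -- values on e
  have h0e : P0h SR.e = 0 := by
    unfold Sys.e
    rw [map_mul, map_mul, h0a, h0a', h0E]
    calc SR.a' * (SR.b * SR.E * SR.b') * SR.a = (SR.a' * SR.b) * SR.E * SR.b' * SR.a := by
          noncomm_ring
      _ = 0 := by rw [SR.hab]; noncomm_ring
  have h1e : P1h SR.e = 1 := by
    unfold Sys.e
    rw [map_mul, map_mul, h1a, h1a', h1E]
    calc SR.a' * (SR.a * SR.a' + SR.b * SR.E * SR.b') * SR.a
        = (SR.a' * SR.a) * (SR.a' * SR.a) + (SR.a' * SR.b) * SR.E * SR.b' * SR.a := by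
          noncomm_ring
      _ = 1 := by rw [SR.hab, SR.haa]; noncomm_ring
  -- compositions
  have c0 : P0h.comp T = AlgHom.id _ _ := by
    apply hom_eq
    intro y
    rw [AlgHom.comp_apply, hT]
    cases y with
    | E =>
      change P0h (SR.b' * SR.E * SR.b) = SR.E
      rw [map_mul, map_mul, h0b, h0b', h0E]
      calc SR.b' * (SR.b * SR.E * SR.b') * SR.b = (SR.b' * SR.b) * SR.E * (SR.b' * SR.b) := by
            noncomm_ring
        _ = SR.E := by rw [SR.hbb]; noncomm_ring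
    | a => exact h0a
    | a' => exact h0a'
    | b => exact h0b
    | b' => exact h0b'
    | s => exact hP0 .s
    | s' => exact hP0 .s'
    | f => exact hP0 .f
    | t => exact hP0 .t
    | t' => exact hP0 .t'
  have c1 : P1h.comp T = AlgHom.id _ _ := by
    apply hom_eq
    intro y
    rw [AlgHom.comp_apply, hT]
    cases y with
    | E =>
      change P1h (SR.b' * SR.E * SR.b) = SR.E
      rw [map_mul, map_mul, h1b, h1b', h1E]
      calc SR.b' * (SR.a * SR.a' + SR.b * SR.E * SR.b') * SR.b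
          = (SR.b' * SR.a) * SR.a' * SR.b + (SR.b' * SR.b) * SR.E * (SR.b' * SR.b) := by
            noncomm_ring
        _ = SR.E := by rw [SR.hbb, SR.hba]; noncomm_ring
    | a => exact h1a
    | a' => exact h1a'
    | b => exact h1b
    | b' => exact h1b'
    | s => exact hP1 .s
    | s' => exact hP1 .s'
    | f => exact hP1 .f
    | t => exact hP1 .t
    | t' => exact hP1 .t'
  have c0' : ∀ r, P0h (T r) = r := fun r => by
    have := AlgHom.congr_fun c0 r
    simpa using this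
  have c1' : ∀ r, P1h (T r) = r := fun r => by
    have := AlgHom.congr_fun c1 r
    simpa using this
  have cid : combine SR.e SR.e_sq e_central (T.comp P1h) (T.comp P0h) = AlgHom.id _ _ := by
    apply hom_eq
    intro y
    change SR.e * T (P1h (SR.gen y)) + (1 - SR.e) * T (P0h (SR.gen y)) = SR.gen y
    have triv : ∀ z : RR, SR.e * z + (1 - SR.e) * z = z := by
      intro z; rw [← add_mul, add_sub_cancel, one_mul]
    cases y with
    | E =>
      change SR.e * T (P1h SR.E) + (1 - SR.e) * T (P0h SR.E) = SR.E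
      rw [h1E, h0E]
      simp only [map_add, map_mul, hTa, hTa', hTb, hTb', hTE]
      conv_rhs => rw [SR.E_eq]
      rw [mul_add, sub_mul, one_mul]
      abel
    | a =>
      change SR.e * T (P1h SR.a) + (1 - SR.e) * T (P0h SR.a) = SR.a
      rw [h1a, h0a, hTa, triv]
    | a' =>
      change SR.e * T (P1h SR.a') + (1 - SR.e) * T (P0h SR.a') = SR.a'
      rw [h1a', h0a', hTa', triv]
    | b =>
      change SR.e * T (P1h SR.b) + (1 - SR.e) * T (P0h SR.b) = SR.b
      rw [h1b, h0b, hTb, triv]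
    | b' =>
      change SR.e * T (P1h SR.b') + (1 - SR.e) * T (P0h SR.b') = SR.b'
      rw [h1b', h0b', hTb', triv]
    | s =>
      have k1 : P1h (SR.gen .s) = SR.gen .s := hP1 .s
      have k0 : P0h (SR.gen .s) = SR.gen .s := hP0 .s
      have k : T (SR.gen .s) = SR.gen .s := hT .s
      rw [k1, k0, k, triv]
    | s' =>
      have k1 : P1h (SR.gen .s') = SR.gen .s' := hP1 .s'
      have k0 : P0h (SR.gen .s') = SR.gen .s' := hP0 .s'
      have k : T (SR.gen .s') = SR.gen .s' := hT .s'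
      rw [k1, k0, k, triv]
    | f =>
      have k1 : P1h (SR.gen .f) = SR.gen .f := hP1 .f
      have k0 : P0h (SR.gen .f) = SR.gen .f := hP0 .f
      have k : T (SR.gen .f) = SR.gen .f := hT .f
      rw [k1, k0, k, triv]
    | t =>
      have k1 : P1h (SR.gen .t) = SR.gen .t := hP1 .t
      have k0 : P0h (SR.gen .t) = SR.gen .t := hP0 .t
      have k : T (SR.gen .t) = SR.gen .t := hT .t
      rw [k1, k0, k, triv]
    | t' =>
      have k1 : P1h (SR.gen .t') = SR.gen .t' := hP1 .t'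
      have k0 : P0h (SR.gen .t') = SR.gen .t' := hP0 .t'
      have k : T (SR.gen .t') = SR.gen .t' := hT .t'
      rw [k1, k0, k, triv]
  refine ⟨{ toFun := fun r => (P0h r, P1h r)
            invFun := fun p => (1 - SR.e) * T p.1 + SR.e * T p.2
            left_inv := ?_
            right_inv := ?_
            map_mul' := ?_
            map_add' := ?_ }⟩
  · intro r
    have := AlgHom.congr_fun cid r
    change SR.e * T (P1h r) + (1 - SR.e) * T (P0h r) = r at this
    change (1 - SR.e) * T (P0h r) + SR.e * T (P1h r) = r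
    rw [add_comm]; exact this
  · rintro ⟨r0, r1⟩
    change (P0h ((1 - SR.e) * T r0 + SR.e * T r1), P1h ((1 - SR.e) * T r0 + SR.e * T r1)) =
      (r0, r1)
    simp only [map_add, map_mul, map_sub, map_one, h0e, h1e, c0', c1']
    simp
  · intro r q
    simp
  · intro r q
    simp

end Pool.Agent.Work.MP_4e9880_al
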