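import Mathlib

set_option autoImplicit false
set_option linter.unusedSectionVars false

namespace Pool.Agent.Work.MP_4e9880_al

/-- The structure encoded by the finitely presented ring. -/
structure Sys (A : Type*) [Ring A] where
  (a a' b b' s s' f t t' E : A)
  haa : a' * a = 1
  hbb : b' * b = 1
  hab : a' * b = 0
  hba : b' * a = 0
  hsum : a * a' + b * b' = 1
  hss : s * s' = 1
  hss' : s' * s = 1
  hff : f * f = 1
  htt : t * t' = 1
  htt' : t' * t = 1
  g1a : s * a * s' * a = a * a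
  g1b : s * a * s' * b = b * (s * a * s')
  g2a : s * a' * s' * a = a * a'
  g2b : s * a' * s' * b = b * (s * a' * s')
  g3a : s * b * s' * a = a * b
  g3b : s * b * s' * b = b * (s * b * s')
  g4a : s * b' * s' * a = a * b'
  g4b : s * b' * s' * b = b * (s * b' * s')
  g5a : s * f * s' * a = a * f
  g5b : s * f * s' * b = b * (s * f * s')
  g6a : s * t * s' * a = a * t
  g6b : s * t * s' * b = b * (s * t * s')
  g7a : s * E * s' * a = a * E
  g7b : s * E * s' * b = b * (s * E * s')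
  d1 : s * a * s' = f * a
  d2 : s * a' * s' = a' * f
  d3 : s * b * s' = f * b * f
  d4 : s * b' * s' = f * b' * f
  d5 : s * E * s' = f * E * f
  t1 : t * a = a
  t2 : t * b = b * (s * (a * a * a' + a * b * a' * b' + b * b' * b') * s') * t
  t3 : s * (a' * b') * s' * t' * (s * (b * a) * s') * t = a * a'
  e0 : E * E = E
  e1 : E * (s * a * s') = s * a * s' * E
  e2 : E * (s * a' * s') = s * a' * s' * E
  e3 : E * (s * b * s') = s * b * s' * E
  e4 : E * (s * b' * s') = s * b' * s' * E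
  e5 : E * (s * f * s') = s * f * s' * E
  e6 : E * (s * t * s') = s * t * s' * E
  e7 : E * (s * E * s') = s * E * s' * E
  e8 : E * t = t * E

namespace Sys

variable {A : Type*} [Ring A] (S : Sys A)

/-- conjugation by the shift. -/
def D (r : A) : A := S.s * r * S.s'

theorem D_mul (r q : A) : S.D (r * q) = S.D r * S.D q := by
  unfold D
  calc S.s * (r * q) * S.s' = S.s * r * 1 * q * S.s' := by noncomm_ring
    _ = S.s * r * (S.s' * S.s) * q * S.s' := by rw [S.hss']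
    _ = S.s * r * S.s' * (S.s * q * S.s') := by noncomm_ring

theorem D_add (r q : A) : S.D (r + q) = S.D r + S.D q := by
  unfold D; noncomm_ring

theorem D_one : S.D 1 = 1 := by
  unfold D; rw [mul_one, S.hss]

/-- compatibility with the two isometries. -/
def Good (r : A) : Prop := S.D r * S.a = S.a * r ∧ S.D r * S.b = S.b * S.D r

theorem good_mul {r q : A} (hr : S.Good r) (hq : S.Good q) : S.Good (r * q) := by
  refine ⟨?_, ?_⟩
  · rw [D_mul, mul_assoc, hq.1, ← mul_assoc, hr.1, mul_assoc]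
  · rw [D_mul, mul_assoc, hq.2, ← mul_assoc, hr.2, mul_assoc]

theorem good_add {r q : A} (hr : S.Good r) (hq : S.Good q) : S.Good (r + q) := by
  refine ⟨?_, ?_⟩
  · rw [D_add, add_mul, hr.1, hq.1, mul_add]
  · rw [D_add, add_mul, hr.2, hq.2, mul_add]

theorem good_a : S.Good S.a := ⟨S.g1a, S.g1b⟩
theorem good_a' : S.Good S.a' := ⟨S.g2a, S.g2b⟩
theorem good_b : S.Good S.b := ⟨S.g3a, S.g3b⟩
theorem good_b' : S.Good S.b' := ⟨S.g4a, S.g4b⟩
theorem good_f : S.Good S.f := ⟨S.g5a, S.g5b⟩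
theorem good_t : S.Good S.t := ⟨S.g6a, S.g6b⟩
theorem good_E : S.Good S.E := ⟨S.g7a, S.g7b⟩

theorem good_expand {r : A} (hr : S.Good r) : S.D r = S.a * r * S.a' + S.b * S.D r * S.b' := by
  calc S.D r = S.D r * (S.a * S.a' + S.b * S.b') := by rw [S.hsum, mul_one]
    _ = (S.D r * S.a) * S.a' + (S.D r * S.b) * S.b' := by noncomm_ring
    _ = S.a * r * S.a' + S.b * S.D r * S.b' := by rw [hr.1, hr.2]

theorem good_a'D {r : A} (hr : S.Good r) : S.a' * S.D r = r * S.a' := by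
  rw [S.good_expand hr]
  calc S.a' * (S.a * r * S.a' + S.b * S.D r * S.b')
      = (S.a' * S.a) * r * S.a' + (S.a' * S.b) * S.D r * S.b' := by noncomm_ring
    _ = r * S.a' := by rw [S.haa, S.hab]; noncomm_ring

theorem good_b'D {r : A} (hr : S.Good r) : S.b' * S.D r = S.D r * S.b' := by
  conv_lhs => rw [S.good_expand hr]
  calc S.b' * (S.a * r * S.a' + S.b * S.D r * S.b')
      = (S.b' * S.a) * r * S.a' + (S.b' * S.b) * S.D r * S.b' := by noncomm_ring
    _ = S.D r * S.b' := by rw [S.hbb, S.hba]; noncomm_ring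

/-- shift-commutation with `E`. -/
def KE (r : A) : Prop := S.E * S.D r = S.D r * S.E

theorem ke_mul {r q : A} (hr : S.KE r) (hq : S.KE q) : S.KE (r * q) := by
  unfold KE at *
  rw [D_mul, ← mul_assoc, hr, mul_assoc, hq, mul_assoc]

theorem ke_add {r q : A} (hr : S.KE r) (hq : S.KE q) : S.KE (r + q) := by
  unfold KE at *
  rw [D_add, mul_add, hr, hq, add_mul]

theorem ke_a : S.KE S.a := S.e1
theorem ke_a' : S.KE S.a' := S.e2
theorem ke_b : S.KE S.b := S.e3
theorem ke_b' : S.KE S.b' := S.e4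
theorem ke_f : S.KE S.f := S.e5
theorem ke_t : S.KE S.t := S.e6
theorem ke_E : S.KE S.E := S.e7

/-- the Thompson element. -/
def xx : A := S.a * S.a * S.a' + S.a * S.b * S.a' * S.b' + S.b * S.b' * S.b'

def xi : A := S.a * S.a' * S.a' + S.b * S.a * S.b' * S.a' + S.b * S.b * S.b'

theorem xi_xx : S.xi * S.xx = 1 := by
  unfold xi xx
  have h1 := S.haa; have h2 := S.hbb; have h3 := S.hab; have h4 := S.hba; have h5 := S.hsum
  calc (S.a * S.a' * S.a' + S.b * S.a * S.b' * S.a' + S.b * S.b * S.b') *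
      (S.a * S.a * S.a' + S.a * S.b * S.a' * S.b' + S.b * S.b' * S.b')
      = S.a * S.a' * (S.a' * S.a) * S.a * S.a' + S.a * S.a' * (S.a' * S.a) * S.b * S.a' * S.b'
        + S.a * S.a' * (S.a' * S.b) * S.b' * S.b' + S.b * S.a * S.b' * (S.a' * S.a) * S.a * S.a'
        + S.b * S.a * S.b' * (S.a' * S.a) * S.b * S.a' * S.b'
        + S.b * S.a * S.b' * (S.a' * S.b) * S.b' * S.b'
        + S.b * S.b * (S.b' * S.a) * S.a * S.a' + S.b * S.b * (S.b' * S.a) * S.b * S.a' * S.b'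
        + S.b * S.b * (S.b' * S.b) * S.b' * S.b' := by noncomm_ring
    _ = S.a * S.a' * S.a * S.a' + S.a * S.a' * S.b * S.a' * S.b'
        + S.b * S.a * S.b' * S.a * S.a' + S.b * S.a * S.b' * S.b * S.a' * S.b'
        + S.b * S.b * S.b' * S.b' := by rw [h1, h2, h3, h4]; noncomm_ring
    _ = S.a * (S.a' * S.a) * S.a' + S.a * (S.a' * S.b) * S.a' * S.b'
        + S.b * S.a * (S.b' * S.a) * S.a' + S.b * S.a * (S.b' * S.b) * S.a' * S.b'
        + S.b * S.b * S.b' * S.b' := by noncomm_ring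
    _ = S.a * S.a' + S.b * (S.a * S.a' + S.b * S.b') * S.b' := by
        rw [h1, h2, h3, h4]; noncomm_ring
    _ = 1 := by rw [h5, mul_one, h5]

theorem good_xx : S.Good S.xx := by
  unfold xx
  exact S.good_add (S.good_add (S.good_mul (S.good_mul S.good_a S.good_a) S.good_a')
    (S.good_mul (S.good_mul (S.good_mul S.good_a S.good_b) S.good_a') S.good_b'))
    (S.good_mul (S.good_mul S.good_b S.good_b') S.good_b')

theorem good_xi : S.Good S.xi := by
  unfold xi
  exact S.good_add (S.good_add (S.good_mul (S.good_mul S.good_a S.good_a') S.good_a')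
    (S.good_mul (S.good_mul (S.good_mul S.good_b S.good_a) S.good_b') S.good_a'))
    (S.good_mul (S.good_mul S.good_b S.good_b) S.good_b')

theorem ke_xx : S.KE S.xx := by
  unfold xx
  exact S.ke_add (S.ke_add (S.ke_mul (S.ke_mul S.ke_a S.ke_a) S.ke_a')
    (S.ke_mul (S.ke_mul (S.ke_mul S.ke_a S.ke_b) S.ke_a') S.ke_b'))
    (S.ke_mul (S.ke_mul S.ke_b S.ke_b') S.ke_b')

theorem ke_xi : S.KE S.xi := by
  unfold xi
  exact S.ke_add (S.ke_add (S.ke_mul (S.ke_mul S.ke_a S.ke_a') S.ke_a')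
    (S.ke_mul (S.ke_mul (S.ke_mul S.ke_b S.ke_a) S.ke_b') S.ke_a'))
    (S.ke_mul (S.ke_mul S.ke_b S.ke_b) S.ke_b')

theorem t2' : S.t * S.b = S.b * S.D S.xx * S.t := S.t2

theorem t_expand : S.t = S.a * S.a' + S.b * S.D S.xx * S.t * S.b' := by
  calc S.t = S.t * (S.a * S.a' + S.b * S.b') := by rw [S.hsum, mul_one]
    _ = (S.t * S.a) * S.a' + (S.t * S.b) * S.b' := by noncomm_ring
    _ = S.a * S.a' + S.b * S.D S.xx * S.t * S.b' := by rw [S.t1, S.t2']

theorem a't : S.a' * S.t = S.a' := by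
  conv_lhs => rw [S.t_expand]
  calc S.a' * (S.a * S.a' + S.b * S.D S.xx * S.t * S.b')
      = (S.a' * S.a) * S.a' + (S.a' * S.b) * S.D S.xx * S.t * S.b' := by noncomm_ring
    _ = S.a' := by rw [S.haa, S.hab]; noncomm_ring

theorem b't : S.b' * S.t = S.D S.xx * S.t * S.b' := by
  conv_lhs => rw [S.t_expand]
  calc S.b' * (S.a * S.a' + S.b * S.D S.xx * S.t * S.b')
      = (S.b' * S.a) * S.a' + (S.b' * S.b) * S.D S.xx * S.t * S.b' := by noncomm_ring
    _ = S.D S.xx * S.t * S.b' := by rw [S.hbb, S.hba]; noncomm_ring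

theorem Dxi_Dxx : S.D S.xi * S.D S.xx = 1 := by rw [← D_mul, xi_xx, D_one]

theorem tb' : S.t * S.b' = S.D S.xi * S.b' * S.t := by
  calc S.t * S.b' = 1 * S.t * S.b' := by rw [one_mul]
    _ = S.D S.xi * S.D S.xx * S.t * S.b' := by rw [S.Dxi_Dxx]
    _ = S.D S.xi * (S.D S.xx * S.t * S.b') := by noncomm_ring
    _ = S.D S.xi * (S.b' * S.t) := by rw [S.b't]
    _ = S.D S.xi * S.b' * S.t := by noncomm_ring

theorem Et' : S.E * S.t' = S.t' * S.E := by
  calc S.E * S.t' = (S.t' * S.t) * S.E * S.t' := by rw [S.htt', one_mul]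
    _ = S.t' * (S.t * S.E) * S.t' := by noncomm_ring
    _ = S.t' * (S.E * S.t) * S.t' := by rw [S.e8]
    _ = S.t' * S.E * (S.t * S.t') := by noncomm_ring
    _ = S.t' * S.E := by rw [S.htt, mul_one]

/-- `E` commutes with the projection. -/
theorem Eq0 : S.E * (S.a * S.a') = S.a * S.a' * S.E := by
  have h : S.a * S.a' = S.D (S.a' * S.b') * S.t' * S.D (S.b * S.a) * S.t := S.t3.symm
  have k1 : S.E * S.D (S.a' * S.b') = S.D (S.a' * S.b') * S.E := S.ke_mul S.ke_a' S.ke_b'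
  have k2 : S.E * S.D (S.b * S.a) = S.D (S.b * S.a) * S.E := S.ke_mul S.ke_b S.ke_a
  rw [h]
  calc S.E * (S.D (S.a' * S.b') * S.t' * S.D (S.b * S.a) * S.t)
      = (S.E * S.D (S.a' * S.b')) * S.t' * S.D (S.b * S.a) * S.t := by noncomm_ring
    _ = S.D (S.a' * S.b') * (S.E * S.t') * S.D (S.b * S.a) * S.t := by
        rw [k1]; noncomm_ring
    _ = S.D (S.a' * S.b') * S.t' * (S.E * S.D (S.b * S.a)) * S.t := by
        rw [S.Et']; noncomm_ring
    _ = S.D (S.a' * S.b') * S.t' * S.D (S.b * S.a) * (S.E * S.t) := by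
        rw [k2]; noncomm_ring
    _ = S.D (S.a' * S.b') * S.t' * S.D (S.b * S.a) * S.t * S.E := by
        rw [S.e8]; noncomm_ring

theorem Ebb : S.E * (S.b * S.b') = S.b * S.b' * S.E := by
  have h : S.b * S.b' = 1 - S.a * S.a' := by rw [← S.hsum]; noncomm_ring
  rw [h, mul_sub, sub_mul, S.Eq0]; noncomm_ring

/-- a system with the operator `E` replaced. -/
def replace (E' : A) (hg : S.Good E') (hd : S.D E' = S.f * E' * S.f) (h0 : E' * E' = E')
    (h1 : E' * S.D S.a = S.D S.a * E') (h2 : E' * S.D S.a' = S.D S.a' * E')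
    (h3 : E' * S.D S.b = S.D S.b * E') (h4 : E' * S.D S.b' = S.D S.b' * E')
    (h5 : E' * S.D S.f = S.D S.f * E') (h6 : E' * S.D S.t = S.D S.t * E')
    (h7 : E' * S.D E' = S.D E' * E') (h8 : E' * S.t = S.t * E') : Sys A :=
  { S with
    E := E'
    g7a := hg.1
    g7b := hg.2
    d5 := hd
    e0 := h0
    e1 := h1
    e2 := h2
    e3 := h3
    e4 := h4
    e5 := h5
    e6 := h6
    e7 := h7
    e8 := h8 }

/-- commuting with everything shifted. -/
theorem comm_b {r : A} (hr : S.Good r) : S.b * S.D r = S.D r * S.b := hr.2.symm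

theorem E1_comm {r : A} (hr : S.Good r) (hk : S.KE r) :
    (S.b' * S.E * S.b) * S.D r = S.D r * (S.b' * S.E * S.b) := by
  have hk' : S.E * S.D r = S.D r * S.E := hk
  calc (S.b' * S.E * S.b) * S.D r = S.b' * S.E * (S.b * S.D r) := by noncomm_ring
    _ = S.b' * (S.E * S.D r) * S.b := by rw [S.comm_b hr]; noncomm_ring
    _ = (S.b' * S.D r) * S.E * S.b := by rw [hk']; noncomm_ring
    _ = S.D r * (S.b' * S.E * S.b) := by rw [S.good_b'D hr]; noncomm_ring

theorem E0_comm {r : A} (hr : S.Good r) (hk : S.KE r) :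
    (S.b * S.E * S.b') * S.D r = S.D r * (S.b * S.E * S.b') := by
  have hk' : S.E * S.D r = S.D r * S.E := hk
  calc (S.b * S.E * S.b') * S.D r = S.b * S.E * (S.b' * S.D r) := by noncomm_ring
    _ = S.b * (S.E * S.D r) * S.b' := by rw [S.good_b'D hr]; noncomm_ring
    _ = (S.b * S.D r) * S.E * S.b' := by rw [hk']; noncomm_ring
    _ = S.D r * (S.b * S.E * S.b') := by rw [S.comm_b hr]; noncomm_ring

theorem q_comm {r : A} (hr : S.Good r) : (S.a * S.a') * S.D r = S.D r * (S.a * S.a') := by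
  calc (S.a * S.a') * S.D r = S.a * (S.a' * S.D r) := by noncomm_ring
    _ = (S.a * r) * S.a' := by rw [S.good_a'D hr]; noncomm_ring
    _ = S.D r * (S.a * S.a') := by rw [← hr.1]; noncomm_ring

/-- the shifted system. -/
def tau : Sys A := by
  have gE := S.good_mul (S.good_mul S.good_b' S.good_E) S.good_b
  have c := @E1_comm A _ S
  refine S.replace (S.b' * S.E * S.b) gE ?_ ?_ (c S.good_a S.ke_a)
    (c S.good_a' S.ke_a') (c S.good_b S.ke_b) (c S.good_b' S.ke_b')
    (c S.good_f S.ke_f) (c S.good_t S.ke_t) ?_ ?_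
  · rw [D_mul, D_mul]
    have d3 : S.D S.b = S.f * S.b * S.f := S.d3
    have d4 : S.D S.b' = S.f * S.b' * S.f := S.d4
    have d5 : S.D S.E = S.f * S.E * S.f := S.d5
    rw [d3, d4, d5]
    calc S.f * S.b' * S.f * (S.f * S.E * S.f) * (S.f * S.b * S.f)
        = S.f * S.b' * (S.f * S.f) * S.E * (S.f * S.f) * S.b * S.f := by noncomm_ring
      _ = S.f * (S.b' * S.E * S.b) * S.f := by rw [S.hff]; noncomm_ring
  · calc S.b' * S.E * S.b * (S.b' * S.E * S.b)
        = S.b' * (S.E * (S.b * S.b')) * S.E * S.b := by noncomm_ring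
      _ = (S.b' * S.b) * S.b' * (S.E * S.E) * S.b := by rw [S.Ebb]; noncomm_ring
      _ = S.b' * S.E * S.b := by rw [S.hbb, S.e0]; noncomm_ring
  · have k : S.KE (S.b' * S.E * S.b) := S.ke_mul (S.ke_mul S.ke_b' S.ke_E) S.ke_b
    exact c gE k
  · have hk1 : S.E * S.D S.xi = S.D S.xi * S.E := S.ke_xi
    calc S.b' * S.E * S.b * S.t = S.b' * S.E * S.b * (S.D S.xi * S.D S.xx) * S.t := by
          rw [S.Dxi_Dxx, mul_one]
      _ = (S.b' * S.E * S.b * S.D S.xi) * S.D S.xx * S.t := by noncomm_ring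
      _ = (S.D S.xi * (S.b' * S.E * S.b)) * S.D S.xx * S.t := by
          rw [c S.good_xi S.ke_xi]
      _ = S.D S.xi * S.b' * S.E * (S.b * S.D S.xx * S.t) := by noncomm_ring
      _ = S.D S.xi * S.b' * (S.E * S.t) * S.b := by rw [← S.t2']; noncomm_ring
      _ = (S.D S.xi * S.b' * S.t) * S.E * S.b := by rw [S.e8]; noncomm_ring
      _ = S.t * (S.b' * S.E * S.b) := by rw [← S.tb']; noncomm_ring

theorem E0_t : S.b * S.E * S.b' * S.t = S.t * (S.b * S.E * S.b') := by
  have hk1 : S.E * S.D S.xx = S.D S.xx * S.E := S.ke_xx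
  calc S.b * S.E * S.b' * S.t = S.b * S.E * (S.b' * S.t) := by noncomm_ring
    _ = S.b * (S.E * S.D S.xx) * S.t * S.b' := by rw [S.b't]; noncomm_ring
    _ = S.b * S.D S.xx * (S.E * S.t) * S.b' := by rw [hk1]; noncomm_ring
    _ = (S.b * S.D S.xx * S.t) * S.E * S.b' := by rw [S.e8]; noncomm_ring
    _ = S.t * (S.b * S.E * S.b') := by rw [← S.t2']; noncomm_ring

theorem E0_d : S.D (S.b * S.E * S.b') = S.f * (S.b * S.E * S.b') * S.f := by
  rw [D_mul, D_mul]
  have d3 : S.D S.b = S.f * S.b * S.f := S.d3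
  have d4 : S.D S.b' = S.f * S.b' * S.f := S.d4
  have d5 : S.D S.E = S.f * S.E * S.f := S.d5
  rw [d3, d4, d5]
  calc S.f * S.b * S.f * (S.f * S.E * S.f) * (S.f * S.b' * S.f)
      = S.f * S.b * (S.f * S.f) * S.E * (S.f * S.f) * S.b' * S.f := by noncomm_ring
    _ = S.f * (S.b * S.E * S.b') * S.f := by rw [S.hff]; noncomm_ring

theorem E0_sq : S.b * S.E * S.b' * (S.b * S.E * S.b') = S.b * S.E * S.b' := by
  calc S.b * S.E * S.b' * (S.b * S.E * S.b') = S.b * S.E * (S.b' * S.b) * S.E * S.b' := by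
        noncomm_ring
    _ = S.b * (S.E * S.E) * S.b' := by rw [S.hbb]; noncomm_ring
    _ = S.b * S.E * S.b' := by rw [S.e0]

def p0 : Sys A := by
  have gE := S.good_mul (S.good_mul S.good_b S.good_E) S.good_b'
  have c := @E0_comm A _ S
  have k : S.KE (S.b * S.E * S.b') := S.ke_mul (S.ke_mul S.ke_b S.ke_E) S.ke_b'
  exact S.replace (S.b * S.E * S.b') gE S.E0_d S.E0_sq (c S.good_a S.ke_a)
    (c S.good_a' S.ke_a') (c S.good_b S.ke_b) (c S.good_b' S.ke_b')
    (c S.good_f S.ke_f) (c S.good_t S.ke_t) (c gE k) S.E0_t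

theorem E1_comm' {r : A} (hr : S.Good r) (hk : S.KE r) :
    (S.a * S.a' + S.b * S.E * S.b') * S.D r = S.D r * (S.a * S.a' + S.b * S.E * S.b') := by
  rw [add_mul, mul_add, S.q_comm hr, S.E0_comm hr hk]

theorem ke_q : S.KE (S.a * S.a') := S.ke_mul S.ke_a S.ke_a'

def p1 : Sys A := by
  have gE0 := S.good_mul (S.good_mul S.good_b S.good_E) S.good_b'
  have gE := S.good_add (S.good_mul S.good_a S.good_a') gE0
  have c := @E1_comm' A _ S
  have k : S.KE (S.a * S.a' + S.b * S.E * S.b') :=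
    S.ke_add S.ke_q (S.ke_mul (S.ke_mul S.ke_b S.ke_E) S.ke_b')
  refine S.replace (S.a * S.a' + S.b * S.E * S.b') gE ?_ ?_ (c S.good_a S.ke_a)
    (c S.good_a' S.ke_a') (c S.good_b S.ke_b) (c S.good_b' S.ke_b')
    (c S.good_f S.ke_f) (c S.good_t S.ke_t) (c gE k) ?_
  · rw [D_add, S.E0_d, D_mul]
    have d1 : S.D S.a = S.f * S.a := S.d1
    have d2 : S.D S.a' = S.a' * S.f := S.d2
    rw [d1, d2]; noncomm_ring
  · calc (S.a * S.a' + S.b * S.E * S.b') * (S.a * S.a' + S.b * S.E * S.b')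
        = S.a * (S.a' * S.a) * S.a' + S.a * (S.a' * S.b) * S.E * S.b'
          + S.b * S.E * (S.b' * S.a) * S.a' + S.b * S.E * S.b' * (S.b * S.E * S.b') := by
          noncomm_ring
      _ = S.a * S.a' + S.b * S.E * S.b' := by
          rw [S.haa, S.hab, S.hba, S.E0_sq]; noncomm_ring
  · rw [add_mul, mul_add, S.E0_t]
    calc S.a * S.a' * S.t + S.t * (S.b * S.E * S.b')
        = S.a * (S.a' * S.t) + S.t * (S.b * S.E * S.b') := by noncomm_ring
      _ = (S.t * S.a) * S.a' + S.t * (S.b * S.E * S.b') := by rw [S.a't, S.t1]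
      _ = S.t * (S.a * S.a') + S.t * (S.b * S.E * S.b') := by noncomm_ring

/-- The central idempotent. -/
def e : A := S.a' * S.E * S.a

theorem e_sq : S.e * S.e = S.e := by
  unfold e
  calc S.a' * S.E * S.a * (S.a' * S.E * S.a) = S.a' * (S.E * (S.a * S.a')) * S.E * S.a := by
        noncomm_ring
    _ = (S.a' * S.a) * S.a' * (S.E * S.E) * S.a := by rw [S.Eq0]; noncomm_ring
    _ = S.a' * S.E * S.a := by rw [S.haa, S.e0]; noncomm_ring

theorem e_comm {r : A} (hr : S.Good r) (hk : S.KE r) : S.e * r = r * S.e := by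
  have hk' : S.E * S.D r = S.D r * S.E := hk
  unfold e
  calc S.a' * S.E * S.a * r = S.a' * S.E * (S.a * r) := by noncomm_ring
    _ = S.a' * (S.E * S.D r) * S.a := by rw [← hr.1]; noncomm_ring
    _ = (S.a' * S.D r) * S.E * S.a := by rw [hk']; noncomm_ring
    _ = r * (S.a' * S.E * S.a) := by rw [S.good_a'D hr]; noncomm_ring

theorem De : S.D S.e = S.e := by
  unfold e
  rw [D_mul, D_mul]
  have d1 : S.D S.a = S.f * S.a := S.d1
  have d2 : S.D S.a' = S.a' * S.f := S.d2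
  have d5 : S.D S.E = S.f * S.E * S.f := S.d5
  rw [d1, d2, d5]
  calc S.a' * S.f * (S.f * S.E * S.f) * (S.f * S.a)
      = S.a' * (S.f * S.f) * S.E * (S.f * S.f) * S.a := by noncomm_ring
    _ = S.a' * S.E * S.a := by rw [S.hff]; noncomm_ring

theorem e_s : S.e * S.s = S.s * S.e := by
  have h : S.s * S.e * S.s' = S.e := S.De
  calc S.e * S.s = S.s * S.e * S.s' * S.s := by rw [h]
    _ = S.s * S.e * (S.s' * S.s) := by noncomm_ring
    _ = S.s * S.e := by rw [S.hss', mul_one]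

theorem e_s' : S.e * S.s' = S.s' * S.e := by
  calc S.e * S.s' = (S.s' * S.s) * S.e * S.s' := by rw [S.hss', one_mul]
    _ = S.s' * (S.s * S.e) * S.s' := by noncomm_ring
    _ = S.s' * (S.e * S.s) * S.s' := by rw [S.e_s]
    _ = S.s' * S.e * (S.s * S.s') := by noncomm_ring
    _ = S.s' * S.e := by rw [S.hss, mul_one]

theorem e_t : S.e * S.t = S.t * S.e := S.e_comm S.good_t S.ke_t

theorem e_t' : S.e * S.t' = S.t' * S.e := by
  calc S.e * S.t' = (S.t' * S.t) * S.e * S.t' := by rw [S.htt', one_mul]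
    _ = S.t' * (S.t * S.e) * S.t' := by noncomm_ring
    _ = S.t' * (S.e * S.t) * S.t' := by rw [S.e_t]
    _ = S.t' * S.e * (S.t * S.t') := by noncomm_ring
    _ = S.t' * S.e := by rw [S.htt, mul_one]

theorem E_eq : S.E = S.e * (S.a * S.a') + S.b * (S.b' * S.E * S.b) * S.b' := by
  have h1 : S.e * S.a = S.a * S.e := S.e_comm S.good_a S.ke_a
  calc S.E = (S.a * S.a' + S.b * S.b') * S.E := by rw [S.hsum, one_mul]
    _ = (S.a * S.a' + S.b * S.b') * S.E := rfl
    _ = (S.a * S.a') * S.E + (S.b * S.b') * S.E := by noncomm_ring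
    _ = S.a * (S.a' * S.a) * S.a' * S.E + S.b * (S.b' * S.b) * S.b' * S.E := by
        rw [S.haa, S.hbb]; noncomm_ring
    _ = S.a * S.a' * ((S.a * S.a') * S.E) + S.b * S.b' * ((S.b * S.b') * S.E) := by noncomm_ring
    _ = S.a * S.a' * (S.E * (S.a * S.a')) + S.b * S.b' * (S.E * (S.b * S.b')) := by
        rw [S.Eq0, S.Ebb]
    _ = S.a * (S.a' * S.E * S.a) * S.a' + S.b * (S.b' * S.E * S.b) * S.b' := by noncomm_ring
    _ = (S.a * S.e) * S.a' + S.b * (S.b' * S.E * S.b) * S.b' := rfl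
    _ = S.e * (S.a * S.a') + S.b * (S.b' * S.E * S.b) * S.b' := by
        rw [← h1]; noncomm_ring

end Sys

end Pool.Agent.Work.MP_4e9880_al
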